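import Pool.Agent.helper23.CU.Defs

/-!
# Project cu: (MP_7c3fb3_pr), statements of the modules, part 1

THEOREM.  Zero field.  (A) `d ≥ 2`, `β > (1/2) log (12 d - 13)`: no cutoff.  (B) `d = 2`, spontaneous magnetisation
at some `β₁ < β`: no cutoff at `β`.

Each module is a statement `XX_stmt : Prop` with a proof sketch.  A module file is `Pool/Agent/<seat>/CU/XX.lean`,
`import Pool.Agent.helper23.CU.Spec`, `namespace CU`, `theorem XX (h : YY_stmt) ... : XX_stmt`, any other statement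
may be used as a hypothesis (no circles); auxiliary lemmas are prefixed `XX_`.
-/

open Finset Filter Topology

namespace CU

/-! ## A. The chain -/

/-- **MON**.  Heat bath preserves increasing functions.  With `p(σ) = W(σ^+)/(W(σ^+) + W(σ^-))` one has
`W(σ^-)/W(σ^+) = exp(-2β S)`, `S = ∑` of the `2d` neighbouring spins (here `n ≥ 3` is used: the edges at `x` are
`(x,i)` and `(x - e_i, i)`, all different, and no neighbour is `x` itself), so `p` is increasing in the other spins;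
`K f(σ) = p(σ) f(σ^+) + (1-p(σ)) f(σ^-)`. -/
def MON_stmt : Prop := ∀ (d n : ℕ) [NeZero n], 3 ≤ n → ∀ β : ℝ, 0 ≤ β → ∀ f : Conf d n → ℝ, Monotone f →
  (∀ x, Monotone (Kx β x f)) ∧ ∀ t : ℕ, Monotone ((Pf β)^[t] f)

/-- **REV**.  Reversibility of the heat bath: `Ex (f * Kx g) = Ex (Kx f * g)` (group the configurations in pairs
`σ^+, σ^-`), hence the same for `P^t`; `P 1 = 1`. -/
def REV_stmt : Prop := ∀ (d n : ℕ) [NeZero n] (β : ℝ) (f g : Conf d n → ℝ) (t : ℕ),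
  Ex β (fun σ : Conf d n => f σ * (Pf β)^[t] g σ) = Ex β (fun σ : Conf d n => (Pf β)^[t] f σ * g σ) ∧
  (∀ c : ℝ, (Pf β)^[t] (fun _ : Conf d n => c) = fun _ => c)

/-- **LIN**.  `P^t` is linear and positive, `Ex` is linear, positive and `Ex c = c`. -/
def LIN_stmt : Prop := ∀ (d n : ℕ) [NeZero n] (β : ℝ) (f g : Conf d n → ℝ) (a b : ℝ) (t : ℕ),
  ((Pf β)^[t] (fun σ : Conf d n => a * f σ + b * g σ) = fun σ : Conf d n => a * (Pf β)^[t] f σ + b * (Pf β)^[t] g σ) ∧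
  ((∀ σ, f σ ≤ g σ) → ∀ σ, (Pf β)^[t] f σ ≤ (Pf β)^[t] g σ) ∧
  (Ex β (fun σ : Conf d n => a * f σ + b * g σ) = a * Ex β f + b * Ex β g) ∧
  ((∀ σ, f σ ≤ g σ) → Ex β f ≤ Ex β g) ∧ (Ex β (fun _ : Conf d n => a) = a)

/-- **FLP**.  Spin flip symmetry. -/
def FLP_stmt : Prop := ∀ (d n : ℕ) [NeZero n] (β : ℝ) (f : Conf d n → ℝ) (t : ℕ),
  ((Pf β)^[t] (fun σ : Conf d n => f (flipc σ)) = fun σ : Conf d n => (Pf β)^[t] f (flipc σ)) ∧
  (Ex β (fun σ : Conf d n => f (flipc σ)) = Ex β f) ∧ (∀ (s : ℕ) (σ : Conf d n), gs β s (flipc σ) = - gs β s σ)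

/-- **BR**.  Bridge: `dTV` in terms of the operator on functions with values in `[0,1]`.
`wt β 0 σ = C * W β σ` with `C = exp(β #edges)`, so `glauber β 0` is the matrix of `Pf β`, `gibbs β 0` is the law of `Ex`,
`((glauber β 0)^t).mulVec f = (Pf β)^[t] f`, and `(1/2) ∑ |μ - ν| = sup_{0 ≤ f ≤ 1} (μ f - ν f)` for probabilities
(maximum at the indicator of `μ > ν`); the supremum over `σ` is over a finite nonempty type. -/
def BR_stmt : Prop := ∀ (d n : ℕ) [NeZero n], 3 ≤ n → ∀ (β : ℝ) (t : ℕ),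
  (∀ c : ℝ, (∀ (f : Conf d n → ℝ), (∀ η, 0 ≤ f η ∧ f η ≤ 1) → ∀ σ, (Pf β)^[t] f σ - Ex β f ≤ c) →
    dTV d n β 0 t ≤ c) ∧
  (∀ (f : Conf d n → ℝ), (∀ η, 0 ≤ f η ∧ f η ≤ 1) → ∀ σ, (Pf β)^[t] f σ - Ex β f ≤ dTV d n β 0 t)

/-- **DM**.  `dTV` is nonincreasing (zero field; from BR: `P^{t+1} f = P^t (P f)`). -/
def DM_stmt : Prop := ∀ (d n : ℕ) [NeZero n], 3 ≤ n → ∀ (β : ℝ) (s t : ℕ), s ≤ t →
  dTV d n β 0 t ≤ dTV d n β 0 s

/-- **BX1**.  The chain is dominated by the chain with plus boundary conditions: `P^t f ≤ (PD)^t f` for increasing `f`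
(both sides increasing; `P g (σ) ≤ P g (ext D σ)` as `σ ≤ ext D σ`). -/
def BX1_stmt : Prop := ∀ (d n : ℕ) [NeZero n], 3 ≤ n → ∀ β : ℝ, 0 ≤ β → ∀ (D : Finset (Site d n))
  (f : Conf d n → ℝ), Monotone f → ∀ (t : ℕ) (σ : Conf d n), (Pf β)^[t] f σ ≤ (PD β D)^[t] f σ

/-- **BX2**.  `ExD` is stationary for `PD`.  For `σ ∈ PlusOn D`, `ext D σ = σ`.  For `x ∉ D`, `Kx β x f σ = f σ` (both `update σ x b` have the same
`ext D`, and `f` only depends on `ext D`).  For `x ∈ D` the heat bath is reversible for the restricted weights (pairs `σ^+, σ^-` in `PlusOn D`). -/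
def BX2_stmt : Prop := ∀ (d n : ℕ) [NeZero n] (β : ℝ) (D : Finset (Site d n)) (f : Conf d n → ℝ),
  (∀ σ, f (ext D σ) = f σ) → (∀ σ, PD β D f (ext D σ) = PD β D f σ) ∧ ExD β D (PD β D f) = ExD β D f

/-- **BX3**.  Doeblin: in `#D` steps all sites of `D` are set to `+` in a fixed order with probability at least
`((1/N) (1/(1+exp(4dβ))))^#D`; a site is set to `+` with probability `W^+/(W^+ + W^-) ≥ 1/(1+exp(4 d β))` (at most `2d` edges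
change).  Induct on the list of sites of `D`: after the sites in `T ⊆ D` have been set to `+`. -/
def BX3_stmt : Prop := ∀ (d n : ℕ) [NeZero n] (β : ℝ), 0 ≤ β → ∀ (D : Finset (Site d n)) (f : Conf d n → ℝ),
  (∀ σ, 0 ≤ f σ) → (∀ σ, f (ext D σ) = f σ) → ∀ σ,
    ((1 / (Fintype.card (Site d n) : ℝ)) * (1 / (1 + Real.exp (4 * d * β)))) ^ D.card * f plus ≤
      (PD β D)^[D.card] f σ

/-- **BX4**.  Convergence: with `ε` the constant of BX3, the oscillation of `(PD)^{j #D} f` is at most `2 (1-ε)^j` for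
`|f| ≤ 1`, and the `ExD` average is constant. -/
def BX4_stmt : Prop := ∀ (d n : ℕ) [NeZero n] (β : ℝ), 0 ≤ β → ∀ (D : Finset (Site d n)) (f : Conf d n → ℝ),
  (∀ σ, |f σ| ≤ 1) → (∀ σ, f (ext D σ) = f σ) → ∀ (t : ℕ) (σ : Conf d n),
    |(PD β D)^[t] f σ - ExD β D f| ≤ 2 *
      (1 - ((1 / (Fintype.card (Site d n) : ℝ)) * (1 / (1 + Real.exp (4 * d * β)))) ^ D.card) ^ (t / D.card)

/-- **ERG**.  Convergence to equilibrium on the torus (BX4 with `D = univ`: `ext univ σ = σ`, `ExD β univ = Ex β`, `PD β univ = Pf β`). -/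
def ERG_stmt : Prop := ∀ (d n : ℕ) [NeZero n] (β : ℝ), 0 ≤ β → ∀ (f : Conf d n → ℝ) (σ : Conf d n),
  Tendsto (fun t => (Pf β)^[t] f σ) atTop (𝓝 (Ex β f))

/-! ## B. The soft argument -/

/-- `G^+` -/
def Gp {d n : ℕ} [NeZero n] (β : ℝ) (s : ℕ) : Set (Conf d n) := {σ | gs β s (plus : Conf d n) - 1 / 100 ≤ gs β s σ}
/-- `G^-` -/
def Gm {d n : ℕ} [NeZero n] (β : ℝ) (s : ℕ) : Set (Conf d n) := {σ | gs β s σ ≤ - gs β s (plus : Conf d n) + 1 / 100}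

/-- `p(t) = P^t(+, G^-)` -/
noncomputable def pt {d n : ℕ} [NeZero n] (β : ℝ) (s t : ℕ) : ℝ :=
  (Pf β)^[t] ((Gm (d := d) (n := n) β s).indicator fun _ => 1) plus

/-- hypotheses of the soft argument on the set `A` (the plus phase) and the time `s` -/
def Hyp {d n : ℕ} [NeZero n] (β : ℝ) (A : Set (Conf d n)) (s : ℕ) : Prop :=
  2 ≤ s ∧ (∀ σ ∈ A, flipc σ ∉ A) ∧ (∀ σ ∈ A, ∀ x b, flipc (Function.update σ x b) ∉ A) ∧
  (s : ℝ) * (1 - 2 * PrE β A) ≤ 1 / 10000 ∧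
  gs β s (plus : Conf d n) - 2 * Ex β (fun σ : Conf d n => A.indicator (fun _ => 1) σ * gs β s σ) ≤ 1 / 10000

/-- **L1**.  `(1/2) Mg ± f` is increasing for every `f` with values in `[0,1]` (if `σ ≤ η`, `σ ≠ η` then `Mg η - Mg σ ≥ 2`),
so is `P^s` of it. -/
def L1_stmt : Prop := ∀ (d n : ℕ) [NeZero n], 3 ≤ n → ∀ β : ℝ, 0 ≤ β → ∀ (s : ℕ) (f : Conf d n → ℝ),
  (∀ η, 0 ≤ f η ∧ f η ≤ 1) → ∀ σ η : Conf d n, σ ≤ η →
    |(Pf β)^[s] f η - (Pf β)^[s] f σ| ≤ (gs β s η - gs β s σ) / 2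

/-- **BT**.  Bottleneck: `P_π(X_0 ∈ A, X_t ∉ A) ≤ t P_π(X_0 ∈ A, X_1 ∉ A) ≤ t (1 - 2π(A))`.  First inequality: induction,
`⟨1_A, P^{t+1} 1_{A^c}⟩ = ⟨P^t 1_A, P 1_{A^c}⟩ ≤ ⟨1_A, P 1_{A^c}⟩ + ⟨P^t 1_A, 1_{A^c}⟩` (`P^t 1_A ≤ 1_A + 1_{A^c} P^t 1_A`,
`P 1_{A^c} ≤ 1`).  Second: from `A` one cannot jump to `flip A`, so `⟨1_A, P 1_{A^c}⟩ = ⟨1_A, P 1_Z⟩ ≤ π(Z)` with
`Z` the complement of `A ∪ flip A` (`π(flip A) = π(A)`). -/
def BT_stmt : Prop := ∀ (d n : ℕ) [NeZero n] (β : ℝ) (A : Set (Conf d n)),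
  (∀ σ ∈ A, flipc σ ∉ A) → (∀ σ ∈ A, ∀ x b, flipc (Function.update σ x b) ∉ A) → ∀ t : ℕ,
    Ex β (fun σ => A.indicator (fun _ => 1) σ * (Pf β)^[t] (Aᶜ.indicator fun _ => 1) σ) ≤
      t * (1 - 2 * PrE β A)

/-- **AL**.  `a_s ≥ 0.45`.  By L1 with `f = 1_A` each value of `P^s 1_A` differs from the value at `plus` by at most
`(a_s - g_s(σ))/2 ≤ a_s` (`g_s ≥ -a_s`), so the oscillation is at most `2 a_s`; by BT the average over `A` is at least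
`1 - s ζ/π(A)` and the average over `flip A` at most `s ζ/π(A)` (reversibility and flip), `ζ = 1 - 2π(A)`, `π(A) ≥ 0.49`. -/
def AL_stmt : Prop := ∀ (d n : ℕ) [NeZero n], 3 ≤ n → ∀ β : ℝ, 0 ≤ β → ∀ (A : Set (Conf d n)) (s : ℕ),
  Hyp β A s → 45 / 100 ≤ gs β s (plus : Conf d n)

/-- **GA**.  `h(σ) = a_s - sgn_A(σ) g_s(σ) ≥ 0` has expectation `D ≤ 10^-4` (flip symmetry).  Markov: `π(h > 1/100) ≤ 1/100`.
On `A` with `h ≤ 1/100` one is in `G^+`; on `A ∩ G^-`, `h ≥ 2 a_s - 1/100 ≥ 0.89`. -/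
def GA_stmt : Prop := ∀ (d n : ℕ) [NeZero n], 3 ≤ n → ∀ β : ℝ, 0 ≤ β → ∀ (A : Set (Conf d n)) (s : ℕ),
  Hyp β A s → 48 / 100 ≤ PrE β (Gm (d := d) (n := n) β s) ∧ 48 / 100 ≤ PrE β (Gp (d := d) (n := n) β s) ∧
    PrE β ((Gp (d := d) (n := n) β s ∪ Gm β s)ᶜ) ≤ 11 / 1000 ∧ PrE β (A ∩ Gm β s) ≤ 2 / 10000 ∧
    PrE β (Gp β s \ A) ≤ 5 / 10000

/-- **UP**.  For every start: `TV ≤ 1 - p(t) + 1/100` at time `t + s`.  `F = P^s f` satisfies `|F - F(minus)| ≤ 1/200` on `G^-` (L1,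
`g_s(minus) = -a_s`, `minus = flipc plus`); `P^t 1_{G^-}` is decreasing, so `≥ p(t)` everywhere; then `P^t F(x) ≤ 1 - p(1-F(-)) + 1/200` and
`P^t F(y) ≥ p F(-) - 1/200`. -/
def UP_stmt : Prop := ∀ (d n : ℕ) [NeZero n], 3 ≤ n → ∀ β : ℝ, 0 ≤ β → ∀ s t : ℕ,
  dTV d n β 0 (t + s) ≤ 1 - pt (d := d) (n := n) β s t + 1 / 100

/-- **PM**.  `p` is nondecreasing and lies in `[0,1]` (`1_{G^-}` is decreasing since `g_s` is increasing). -/
def PM_stmt : Prop := ∀ (d n : ℕ) [NeZero n], 3 ≤ n → ∀ β : ℝ, 0 ≤ β → ∀ s t t' : ℕ, t ≤ t' →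
  0 ≤ pt (d := d) (n := n) β s t ∧ pt (d := d) (n := n) β s t ≤ pt (d := d) (n := n) β s t' ∧
    pt (d := d) (n := n) β s t' ≤ 1

/-- **SU**.  `p(2u) ≤ 2 p(u) + 1/100 + 0.024` for `u ≥ s`.  `a = P^u 1_{G^-}` satisfies `|a(z) - a(plus)| ≤ 1/200` on `G^+`
(L1 with `f = P^{u-s} 1_{G^-}`), so `p(2u) = P^u a (plus) ≤ p(u) + 1/200 + (p(u) + P^u 1_bad (plus))`, and
`P^u 1_bad (plus) ≤ 1/200 + π(bad)/π(G^+)` in the same way (average over `G^+`). -/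
def SU_stmt : Prop := ∀ (d n : ℕ) [NeZero n], 3 ≤ n → ∀ β : ℝ, 0 ≤ β → ∀ (A : Set (Conf d n)) (s : ℕ),
  Hyp β A s → ∀ u : ℕ, s ≤ u →
    pt (d := d) (n := n) β s (2 * u) ≤ 2 * pt (d := d) (n := n) β s u + 34 / 1000

/-- **P8**.  `p(8s) < 1/4`.  `p(t) ≤ 1/200 + ⟨1_{G^+}, P^t 1_{G^-}⟩/π(G^+)` (L1, average over `G^+`), and
`⟨1_{G^+}, P^t 1_{G^-}⟩ ≤ π(G^+ \ A) + ⟨1_A, P^t 1_{A^c}⟩ + π(A ∩ G^-)`. -/
def P8_stmt : Prop := ∀ (d n : ℕ) [NeZero n], 3 ≤ n → ∀ β : ℝ, 0 ≤ β → ∀ (A : Set (Conf d n)) (s : ℕ),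
  Hyp β A s → pt (d := d) (n := n) β s (8 * s) < 1 / 4

/-- **NC**.  `R = min {t : p(t) ≥ 1/4}` (exists by ERG, `p(t) → π(G^-) ≥ 0.48`), `R > 8s ≥ 16`, `u = ⌈R/2⌉ ≥ s`, `t₁ = u + s`,
`t₂ = R - 1`; `p(u) ≥ (1/4 - 34/1000)/2`, so `dTV(t₁) ≤ 1 - 0.108 + 0.01`; `dTV(t₂) ≥ Ex 1_{G^-} - p(t₂)`: apply BR to `1 - 1_{G^-}`. -/
def NC_stmt : Prop := ∀ (d n : ℕ) [NeZero n], 3 ≤ n → ∀ β : ℝ, 0 ≤ β → ∀ (A : Set (Conf d n)) (s : ℕ),
  Hyp β A s → ∃ t₁ t₂ : ℕ, 16 ≤ t₂ ∧ 4 * t₁ ≤ 3 * t₂ ∧ dTV d n β 0 t₁ ≤ 95 / 100 ∧ 1 / 5 ≤ dTV d n β 0 t₂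

/-- **FN**.  No cutoff from NC for all large `n`: with `ε = 1/10`, `dTV(⌊(9/10)τ⌋) → 1`, so `⌊(9/10) τ⌋ < t₁`, and
`dTV(⌊(11/10) τ⌋) → 0`, so `t₂ < ⌊(11/10)τ⌋` eventually; `(9/10) τ < t₁ + 1`. -/
def FN_stmt : Prop := ∀ (d : ℕ) (β : ℝ), 0 ≤ β →
  (∀ᶠ n : ℕ in atTop, ∃ t₁ t₂ : ℕ, 16 ≤ t₂ ∧ 4 * t₁ ≤ 3 * t₂ ∧ dTV d (n + 3) β 0 t₁ ≤ 95 / 100 ∧
    1 / 5 ≤ dTV d (n + 3) β 0 t₂) → ¬ Cutoff d β 0

/-! ## C. Phases -/

/-- **PO**.  Potential of a closed cochain supported in a small box.  `e₀ ∈ K`, `c := e₀.1 0 + (r + 2)` is a first coordinate met by no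
endpoint of `K` (all endpoints are `Near (r+1)` of `e₀.1`).  `τ(x) = ∑_{j < (x_0 - c).val} [((c + j, x'), 0) ∈ K]`.  Direction `0` inside:
clear; across the hyperplane `x_0 = c`: the sum over the whole line is 0, since it does not depend on the line (sum the squares along the
line, cyclic telescoping) and some line misses `K` (`d ≥ 2`: second coordinate `e₀.1 1 + (r+2)`).  Direction `i ≠ 0`: sum the squares from the
hyperplane to `x`.  Support: if coordinate `k ≠ 0` of `x` is far then every summand is 0; if `x_0` is far, compare `x` with the point `y` where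
coordinate `1` is replaced by a far one, along edges `(·, 1)` whose endpoints have the far coordinate `x_0`. -/
def PO_stmt : Prop := ∀ (d n r : ℕ) [NeZero n], 2 ≤ d → 2 * r + 5 ≤ n → ∀ K : Finset (Edge d n), K.Nonempty →
  Closed K → (∀ e ∈ K, ∀ e' ∈ K, Near r e.1 e'.1) → ∃ τ, PotS r K τ

/-- **CC**.  Clusters are closed: the broken edges of a square are in the same cluster, and a square has an even number of broken edges.
The clusters partition `brk σ`. -/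
def CC_stmt : Prop := ∀ (d n : ℕ) [NeZero n], 3 ≤ n → ∀ σ : Conf d n, (∀ K ∈ clusters σ, Closed K) ∧
  (∀ e, (∑ K ∈ clusters σ, if e ∈ K then (1 : ZMod 2) else 0) = if e ∈ brk σ then 1 else 0) ∧
  (∀ K ∈ clusters σ, K.Nonempty ∧ K ⊆ brk σ ∧ ∀ e ∈ K, clus σ e = K)

/-- **DEC**.  `σ = eps + ∑ τ_K` everywhere (both sides have the same increments and agree at 0; the torus is connected by unit steps). -/
def DEC_stmt : Prop := ∀ (d n r : ℕ) [NeZero n], 2 ≤ d → 2 * r + 5 ≤ n → ∀ σ : Conf d n, Good r σ →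
  (∀ K ∈ clusters σ, PotS r K (pot r K)) ∧ ∀ x, bv (σ x) = eps r σ + ∑ K ∈ clusters σ, pot r K x

/-- **MP**.  Minus paths are short in the plus phase: if `σ x = false` some `τ_K(x) ≠ 0`; `τ_K` is constant along unbroken edges, so
`τ_K(y) ≠ 0`, and both `x, y` are `Near (r+1)` of an edge of `K`. -/
def MP_stmt : Prop := ∀ (d n r : ℕ) [NeZero n], 2 ≤ d → 2 * r + 5 ≤ n → ∀ (σ : Conf d n) (B : Finset (Site d n)),
  σ ∈ Ph r → ∀ x y, σ x = false → ConnM B σ x y → Near (2 * r + 2) x y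

/-- **LO**.  Locality of the phase: evaluate `σ = eps + ∑ τ_K` at the antipode `z = v + ⌊n/2⌋ (1,..,1)`: the clusters `K` of `σ` with `τ_K(z) ≠ 0` have
all edges `Near (r+1)` of `z` and are clusters of `σ'` too (broken edges and squares there are away from `Box L v`), and conversely. -/
def LO_stmt : Prop := ∀ (d n r L : ℕ) [NeZero n], 2 ≤ d → 2 * (L + 3 * r + 8) ≤ n → ∀ (v : Site d n) (σ σ' : Conf d n),
  Good r σ → Good r σ' → (∀ x, x ∉ Box L v → σ x = σ' x) → eps r σ = eps r σ'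

/-- **FP**.  Flip: same broken edges, `bv (!b) = bv b + 1`. -/
def FP_stmt : Prop := ∀ (d n r : ℕ) [NeZero n] (σ : Conf d n), brk (flipc σ) = brk σ ∧ (Good r (flipc σ) ↔ Good r σ) ∧
  eps r (flipc σ) = eps r σ + 1

/-- **PH**.  Properties of the phase `Ph r`: disjoint from its flip, no direct transition (LO with `L = 0`), and
`1 - 2π(Ph r) = π(not Good r)`. -/
def PH_stmt : Prop := ∀ (d n r : ℕ) [NeZero n], 2 ≤ d → 2 * (3 * r + 8) ≤ n → ∀ β : ℝ,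
  (∀ σ ∈ Ph (d := d) (n := n) r, flipc σ ∉ Ph r) ∧
  (∀ σ ∈ Ph (d := d) (n := n) r, ∀ x b, flipc (Function.update σ x b) ∉ Ph r) ∧
  1 - 2 * PrE β (Ph (d := d) (n := n) r) = PrE β {σ : Conf d n | ¬ Good r σ}

/-! ## D. Static comparison with the box with plus boundary conditions -/

/-- **FK**.  FKG: `⟨σ_v⟩^+_B ≤ ⟨σ_v⟩^+_D` for `D ⊆ B`.  `ExD β D f = E[f | σ = + off D]` is `ExD β B` conditioned on the increasing event
`σ = +` on `B \ D`; use Mathlib's `fkg` (or `four_functions_theorem`) on the distributive lattice `Conf d n`, the weight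
`W β σ` times the indicator of `PlusOn B` is log-supermodular (`#brk (σ ⊓ η) + #brk (σ ⊔ η) ≤ #brk σ + #brk η`, edge by edge). -/
def FK_stmt : Prop := ∀ (d n : ℕ) [NeZero n] (β : ℝ), 0 ≤ β → ∀ (D B : Finset (Site d n)), D ⊆ B → ∀ v,
  ExD β B (fun σ => sg (σ v)) ≤ ExD β D (fun σ => sg (σ v))

/-- `v` is reached from the inner boundary of `B` by a nearest neighbour path of minus sites of `B` (or has such a neighbour) -/
def Reached {d n : ℕ} (B : Finset (Site d n)) (v : Site d n) (σ : Conf d n) : Prop :=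
  ∃ x ∈ B, (∃ y, y ∉ B ∧ (nn x y ∨ nn y x)) ∧ σ x = false ∧ ∃ y, ConnM B σ x y ∧ (y = v ∨ nn y v ∨ nn v y)

/-- **EX**.  Exploration.  Let `𝒞(σ)` be the set of sites of `B` reached from inner boundary sites by minus paths in `B`, and `D(σ)` the set of `x ∈ B`
not on the inner boundary, not in `𝒞`, with no neighbour in `𝒞`.  All sites outside `D(σ)` adjacent to `D(σ)` are `+`.  If `σ' = σ` off `D(σ)` then
`𝒞(σ') = 𝒞(σ)`.  Group the sum over `σ` by `(D(σ), σ off D(σ))`: on each group (with `v ∈ D`) the average of `sg (σ v)` is `ExD β D (σ_v)`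
(the edges touching `D` see only `D` and `+` sites) `≥ ExD β B (σ_v)` by FK. -/
def EX_stmt : Prop := ∀ (d n : ℕ) [NeZero n] (β : ℝ), 0 ≤ β → ∀ (B : Finset (Site d n)) (v : Site d n) (C : Set (Conf d n)),
  v ∈ B → (∀ y, nn v y ∨ nn y v → y ∈ B) → (∀ σ σ' : Conf d n, (∀ x, x ∉ B → σ x = σ' x) → (σ ∈ C ↔ σ' ∈ C)) →
    0 ≤ Ex β (fun σ => (C ∩ {σ | ¬ Reached B v σ}).indicator (fun _ => 1) σ *
      (sg (σ v) - ExD β B (fun η => sg (η v))))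

/-- **SB**.  `2 E[1_{Ph} σ_v] ≥ ⟨σ_v⟩^+_{Box L v} - 4 ζ₁ - 4 ζ`, `ζ₁ = π(not Good r₁)`, `ζ = π(not Good r)`.  `C = {σ : ∃ σ' ∈ Ph r, σ' = σ off Box L v}`;
`Ph r ⊆ C`, `C ∩ {Good r} ⊆ Ph r` (LO), so `C \ Ph r ⊆ {not Good r}` and `|π(C) - 1/2| ≤ ζ/2` (PH).  `Ph r ∩ {Good r₁} ⊆ Ph r₁`: `pot r₁ K = pot r K` (same increments,
both vanish at a point not `Near (r+1)`; DEC).  So on `C ∩ {Good r₁}` the site `v` is not reached: MP with `r₁` gives `Near (2 r₁ + 2)`, but an inner boundary site of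
`Box L v` has a coordinate difference exactly `L ≥ 2 r₁ + 5` from `v`.  EX: `E[1_{C, not reached} (σ_v - m)] ≥ 0`, `m = ⟨σ_v⟩^+`, `|m| ≤ 1`.  Total error
`2 (ζ/2 + ζ₁ + ζ₁ + ζ)`. -/
def SB_stmt : Prop := ∀ (d n r₁ r L : ℕ) [NeZero n], 2 ≤ d → r₁ ≤ r → 2 * r₁ + 5 ≤ L → 2 * (L + 3 * r + 8) ≤ n →
  ∀ β : ℝ, 0 ≤ β → ∀ v : Site d n,
    ExD β (Box L v) (fun σ => sg (σ v)) - 4 * PrE β {σ : Conf d n | ¬ Good r₁ σ} - 4 * PrE β {σ : Conf d n | ¬ Good r σ} ≤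
      2 * Ex β (fun σ => (Ph r).indicator (fun _ => 1) σ * sg (σ v))

/-- **UA**.  Upper bound of `a_s`: `g_s(plus) ≤ ∑_v (⟨σ_v⟩^+_{Box L v} + 2 (1-ε)^{s/m})` for any `m ≥ #Box L v`: BX1, BX4 with `D = Box L v`
(`#D ≥ 1`, `(1-ε_D)^{s/#D} ≤ (1 - ε)^{s/m}` for `ε = q^m ≤ q^{#D}`). -/
def UA_stmt : Prop := ∀ (d n L m s : ℕ) [NeZero n], 3 ≤ n → ∀ β : ℝ, 0 ≤ β → (∀ v : Site d n, (Box L v).card ≤ m) →
  gs β s (plus : Conf d n) ≤ ∑ v : Site d n, (ExD β (Box L v) (fun σ => sg (σ v)) +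
    2 * (1 - ((1 / (Fintype.card (Site d n) : ℝ)) * (1 / (1 + Real.exp (4 * d * β)))) ^ m) ^ (s / m))

/-- **LA**.  Lower bound: `2 E[1_A g_s] ≥ ∑_v 2 E[1_A σ_v] - 4 N s ζ` for a set `A` as in BT (REV; `E|P^s 1_A - 1_A| = 2 E[1_A (1 - P^s 1_A)]`). -/
def LA_stmt : Prop := ∀ (d n s : ℕ) [NeZero n] (β : ℝ) (A : Set (Conf d n)),
  (∀ σ ∈ A, flipc σ ∉ A) → (∀ σ ∈ A, ∀ x b, flipc (Function.update σ x b) ∉ A) →
    (∑ v : Site d n, 2 * Ex β (fun σ => A.indicator (fun _ => 1) σ * sg (σ v))) -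
      4 * (Fintype.card (Site d n) : ℝ) * s * (1 - 2 * PrE β A) ≤
      2 * Ex β (fun σ => A.indicator (fun _ => 1) σ * gs β s σ)

/-- **AS**.  Asymptotics (pure calculus): there are `L, r₁, r, m, s` (depending on `n`) making all error terms small.  Torus side `n + 3`,
`N = (n+3)^d`, `q = (1/N)(1/(1+exp(4dβ)))`, `r₁ = ⌈C₁ log(n+3)⌉`, `L = 2 r₁ + 5`, `m = (2L+1)^d`, `s = m ⌈q^{-m} (n+3)⌉₊ + 2`, `r = ⌊n/16⌋`:
`log s = O((log n)^{d+1})`, so `s N exp(-c r) → 0`; `(1 - q^m)^{s/m} ≤ exp(-(n+3))`. -/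
def AS_stmt : Prop := ∀ (d k : ℕ) (β C c : ℝ), 0 ≤ β → 0 < C → 0 < c → ∀ᶠ n : ℕ in atTop, ∃ r₁ r L m s : ℕ,
  r₁ ≤ r ∧ 2 * r₁ + 5 ≤ L ∧ 2 * (L + 3 * r + 8) ≤ n + 3 ∧ (2 * L + 1) ^ d ≤ m ∧ 2 ≤ s ∧
  (s : ℝ) * (C * ((n : ℝ) + 3) ^ k * Real.exp (-c * r)) ≤ 1 / 10000 ∧
  ((n : ℝ) + 3) ^ d * (2 * (1 - ((1 / ((n : ℝ) + 3) ^ d) * (1 / (1 + Real.exp (4 * d * β)))) ^ m) ^ (s / m) +
    4 * (C * ((n : ℝ) + 3) ^ k * Real.exp (-c * r₁)) + 4 * (C * ((n : ℝ) + 3) ^ k * Real.exp (-c * r)) +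
    4 * s * (C * ((n : ℝ) + 3) ^ k * Real.exp (-c * r))) ≤ 1 / 10000

/-- **BC**.  `#Box L v ≤ (2L+1)^d`. -/
def BC_stmt : Prop := ∀ (d n L : ℕ) [NeZero n] (v : Site d n), (Box L v).card ≤ (2 * L + 1) ^ d

/-- **MAIN**.  Exponential tail of the clusters implies no cutoff.  Assembly of NC, FN, PH, SB, UA, LA, AS, BC. -/
def MAIN_stmt : Prop := ∀ (d : ℕ) (β : ℝ), 2 ≤ d → 0 ≤ β → TailB d β → ¬ Cutoff d β 0

/-! ## E. Low temperature: exponential tail in every dimension -/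

/-- **GR**.  Griffiths: for every set `F` of edges and sites `x, y`, `∑_σ exp(-2β #(brk σ ∩ F)) σ_x σ_y ≥ 0`:
`exp(-2β [e broken]) = exp(-β) (cosh β + σ_a σ_b sinh β)`, expand the product over `e ∈ F`; `∑_σ` of a monomial in the spins is `≥ 0`. -/
def GR_stmt : Prop := ∀ (d n : ℕ) [NeZero n] (β : ℝ), 0 ≤ β → ∀ (F : Finset (Edge d n)) (x y : Site d n),
  0 ≤ ∑ σ : Conf d n, Real.exp (-2 * β * ((brk σ ∩ F).card : ℝ)) * (sg (σ x) * sg (σ y))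

/-- **PB**.  `P(F ⊆ brk σ) ≤ ρ^{#F}`, `ρ = 2e^{-2β}/(1+e^{-2β})`.  `Z_{F ∪ e} ≥ Z_F (1 + e^{-2β})/2` (GR: `P_F(e broken) ≤ 1/2`), so
`Z_{F^c} ≤ Z ((1+e^{-2β})/2)^{-#F}`, and `P(F ⊆ brk) ≤ e^{-2β#F} Z_{F^c}/Z`. -/
def PB_stmt : Prop := ∀ (d n : ℕ) [NeZero n] (β : ℝ), 0 ≤ β → ∀ F : Finset (Edge d n),
  PrE β {σ : Conf d n | F ⊆ brk σ} ≤ (2 * Real.exp (-2 * β) / (1 + Real.exp (-2 * β))) ^ F.card

/-- **DG**.  An edge has at most `6(d-1)` square neighbours. -/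
def DG_stmt : Prop := ∀ (d n : ℕ) [NeZero n] (e : Edge d n) (S : Finset (Edge d n)), (∀ e' ∈ S, sqAdj e e') →
  S.card ≤ 6 * (d - 1)

/-- **PC**.  Path counting.  If `¬ Good r σ` there are broken `e`, reachable `e'` not `Near r`; each step of `Gr σ` changes every coordinate by at most 1,
so a shortest path has length `> r`; its first `r + 1` edges are distinct broken edges, consecutive ones `sqAdj`.  Union bound. -/
def PC_stmt : Prop := ∀ (d n r : ℕ) [NeZero n], 3 ≤ n → ∀ β : ℝ, 0 ≤ β →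
  PrE β {σ : Conf d n | ¬ Good r σ} ≤ (Fintype.card (Edge d n) : ℝ) * (6 * ((d - 1 : ℕ) : ℝ)) ^ r *
    (2 * Real.exp (-2 * β) / (1 + Real.exp (-2 * β))) ^ (r + 1)

/-- **TA**.  Exponential tail for `β > (1/2) log (12 d - 13)`, `d ≥ 2`: `6 (d-1) ρ < 1`. -/
def TA_stmt : Prop := ∀ (d : ℕ) (β : ℝ), 2 ≤ d → Real.log (12 * d - 13) / 2 < β → TailB d β

end CU
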