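import Pool.Agent.helper23.CU.SpecU

open Finset Filter Topology

namespace CU

section VF_sec

variable {d n L : ℕ}

/-- reduction modulo `n + 3` -/
def VF_red (n : ℕ) {d : ℕ} (x : ZSite d) : Site d (n + 3) := fun k => ((x k : ℤ) : ZMod (n + 3))

/-- representatives of smallest absolute value -/
def VF_lift {n d : ℕ} (y : Site d (n + 3)) : ZSite d := fun k => (y k).valMinAbs

lemma VF_red_lift (y : Site d (n + 3)) : VF_red n (VF_lift y) = y := by
  funext k
  simp [VF_red, VF_lift]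

lemma VF_lift_red (hn : 2 * L ≤ n) {x : ZSite d} (hx : ∀ k, |x k| ≤ L + 1) :
    VF_lift (VF_red n x) = x := by
  funext k
  simp only [VF_lift, VF_red]
  rw [ZMod.valMinAbs_spec]
  refine ⟨rfl, ?_⟩
  have h := abs_le.1 (hx k)
  rw [Set.mem_Ioc]
  push_cast
  constructor <;> omega

lemma VF_mem_zBox {x : ZSite d} : x ∈ zBox L (0 : ZSite d) ↔ ∀ k, |x k| ≤ L := by
  simp only [zBox, Fintype.mem_piFinset, Finset.mem_Icc, Pi.zero_apply, zero_sub, zero_add, abs_le]

lemma VF_mem_Box {y : Site d (n + 3)} : y ∈ Box L (0 : Site d (n + 3)) ↔ VF_lift y ∈ zBox L (0 : ZSite d) := by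
  rw [VF_mem_zBox]
  simp only [Box, Finset.mem_filter, Finset.mem_univ, true_and, Near, Pi.zero_apply, sub_zero, VF_lift]
  refine forall_congr' fun k => ?_
  rw [Int.abs_eq_natAbs]
  exact_mod_cast Iff.rfl

lemma VF_mem_tE {Λ : Finset (ZSite d)} {e : ZSite d × Fin d} :
    e ∈ tE Λ ↔ e.1 ∈ Λ ∨ e.1 + zev e.2 ∈ Λ := by
  simp only [tE, Finset.mem_union, Finset.mem_product, Finset.mem_univ, and_true, Finset.mem_image,
    Prod.exists]
  constructor
  · rintro (h | ⟨x, i, hx, he⟩)
    · exact Or.inl h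
    · right
      rw [← he]
      simpa using hx
  · rintro (h | h)
    · exact Or.inl h
    · exact Or.inr ⟨e.1 + zev e.2, e.2, h, by simp⟩

lemma VF_zev_abs (i : Fin d) (k : Fin d) : |(zev i : ZSite d) k| ≤ 1 := by
  by_cases h : k = i
  · subst h; simp [zev]
  · simp [zev, h]

lemma VF_tE_bound {e : ZSite d × Fin d} (he : e ∈ tE (zBox L (0 : ZSite d))) :
    (∀ k, |e.1 k| ≤ L + 1) ∧ (∀ k, |(e.1 + zev e.2) k| ≤ L + 1) := by
  rw [VF_mem_tE, VF_mem_zBox, VF_mem_zBox] at he
  rcases he with h | h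
  · refine ⟨fun k => (h k).trans (by linarith), fun k => ?_⟩
    have h1 := abs_add_le (e.1 k) ((zev e.2 : ZSite d) k)
    have h2 := VF_zev_abs e.2 k
    have h3 := h k
    simp only [Pi.add_apply]
    linarith
  · refine ⟨fun k => ?_, fun k => (h k).trans (by linarith)⟩
    have h1 := abs_add_le ((e.1 + zev e.2) k) (-(zev e.2 : ZSite d) k)
    rw [abs_neg] at h1
    have h2 := VF_zev_abs e.2 k
    have h3 := h k
    have h4 : e.1 k = (e.1 + zev e.2) k + -(zev e.2 : ZSite d) k := by simp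
    rw [h4]
    linarith

lemma VF_red_add (x : ZSite d) (i : Fin d) : VF_red n (x + zev i) = VF_red n x + ev i := by
  funext k
  by_cases h : k = i
  · subst h; simp [VF_red, zev, ev]
  · simp [VF_red, zev, ev, h]

/-- the configuration of the torus -/
noncomputable def VF_T (n L : ℕ) {d : ℕ} (η : {x // x ∈ zBox L (0 : ZSite d)} → Bool) : Conf d (n + 3) :=
  fun y => glue (zBox L 0) η (fun _ => true) (VF_lift y)

lemma VF_T_red (hn : 2 * L ≤ n) (η : {x // x ∈ zBox L (0 : ZSite d)} → Bool) {x : ZSite d}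
    (hx : ∀ k, |x k| ≤ L + 1) : VF_T n L η (VF_red n x) = glue (zBox L 0) η (fun _ => true) x := by
  unfold VF_T
  rw [VF_lift_red hn hx]

lemma VF_card (hn : 2 * L ≤ n) (η : {x // x ∈ zBox L (0 : ZSite d)} → Bool) :
    (brk (VF_T n L η)).card = ((tE (zBox L (0 : ZSite d))).filter fun e =>
      glue (zBox L 0) η (fun _ => true) e.1 ≠ glue (zBox L 0) η (fun _ => true) (e.1 + zev e.2)).card := by
  symm
  refine Finset.card_bij (fun e _ => (VF_red n e.1, e.2)) ?_ ?_ ?_
  · intro e he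
    rw [Finset.mem_filter] at he
    obtain ⟨b1, b2⟩ := VF_tE_bound he.1
    simp only [brk, Finset.mem_filter, Finset.mem_univ, true_and]
    rw [← VF_red_add, VF_T_red hn η b1, VF_T_red hn η b2]
    exact he.2
  · intro e he e' he' h
    rw [Finset.mem_filter] at he he'
    have h1 := congrArg Prod.fst h
    have h2 := congrArg Prod.snd h
    simp only at h1 h2
    have h3 := congrArg VF_lift h1
    rw [VF_lift_red hn (VF_tE_bound he.1).1, VF_lift_red hn (VF_tE_bound he'.1).1] at h3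
    exact Prod.ext h3 h2
  · intro e he
    simp only [brk, Finset.mem_filter, Finset.mem_univ, true_and] at he
    have hT : ∀ y : Site d (n + 3), VF_lift y ∉ zBox L (0 : ZSite d) → VF_T n L η y = true := by
      intro y hy
      simp [VF_T, glue, hy]
    have hor : VF_lift e.1 ∈ zBox L (0 : ZSite d) ∨ VF_lift (e.1 + ev e.2) ∈ zBox L (0 : ZSite d) := by
      by_contra hcon
      push Not at hcon
      exact he (by rw [hT _ hcon.1, hT _ hcon.2])
    have hex : ∃ x : ZSite d, (x, e.2) ∈ tE (zBox L (0 : ZSite d)) ∧ VF_red n x = e.1 := by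
      rcases hor with h | h
      · exact ⟨VF_lift e.1, by rw [VF_mem_tE]; exact Or.inl h, VF_red_lift _⟩
      · refine ⟨VF_lift (e.1 + ev e.2) - zev e.2, ?_, ?_⟩
        · rw [VF_mem_tE]
          right
          simpa using h
        · have h1 : VF_red n (VF_lift (e.1 + ev e.2) - zev e.2 + zev e.2) = e.1 + ev e.2 := by
            rw [sub_add_cancel, VF_red_lift]
          rw [VF_red_add] at h1
          exact add_right_cancel h1
    obtain ⟨x, hx, hxe⟩ := hex
    obtain ⟨b1, b2⟩ := VF_tE_bound hx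
    refine ⟨(x, e.2), ?_, ?_⟩
    · rw [Finset.mem_filter]
      refine ⟨hx, ?_⟩
      simp only at b1 b2 ⊢
      rw [← VF_T_red hn η b1, ← VF_T_red hn η b2, VF_red_add, hxe]
      exact he
    · simp only
      rw [hxe]

lemma VF_sg (a b : Bool) : sg a * sg b = 1 - 2 * (if a ≠ b then (1 : ℝ) else 0) := by
  cases a <;> cases b <;> norm_num [sg]

lemma VF_zwt (β : ℝ) (Λ : Finset (ZSite d)) (σ : ZConf d) :
    zwt β 0 Λ σ = Real.exp (β * ((tE Λ).card : ℝ)) *
      Real.exp (-2 * β * (((tE Λ).filter fun e => σ e.1 ≠ σ (e.1 + zev e.2)).card : ℝ)) := by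
  unfold zwt
  rw [← Real.exp_add]
  congr 1
  have h1 : ∑ e ∈ tE Λ, sg (σ e.1) * sg (σ (e.1 + zev e.2)) =
      ((tE Λ).card : ℝ) - 2 * (((tE Λ).filter fun e => σ e.1 ≠ σ (e.1 + zev e.2)).card : ℝ) := by
    rw [Finset.sum_congr rfl (fun e _ => VF_sg (σ e.1) (σ (e.1 + zev e.2)))]
    rw [Finset.sum_sub_distrib, ← Finset.mul_sum, Finset.sum_const, nsmul_eq_mul, mul_one, Finset.sum_boole]
  rw [h1]
  ring

lemma VF_W (hn : 2 * L ≤ n) (β : ℝ) (η : {x // x ∈ zBox L (0 : ZSite d)} → Bool) :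
    zwt β 0 (zBox L 0) (glue (zBox L 0) η (fun _ => true)) =
      Real.exp (β * ((tE (zBox L (0 : ZSite d))).card : ℝ)) * W β (VF_T n L η) := by
  rw [VF_zwt, W, VF_card hn η]

lemma VF_sum (hn : 2 * L ≤ n) (F : Conf d (n + 3) → ℝ) :
    ∑ σ ∈ PlusOn (Box L (0 : Site d (n + 3))), F σ =
      ∑ η : {x // x ∈ zBox L (0 : ZSite d)} → Bool, F (VF_T n L η) := by
  symm
  refine Finset.sum_nbij' (fun η => VF_T n L η) (fun σ x => σ (VF_red n x.1)) ?_ ?_ ?_ ?_ ?_
  · intro η _
    simp only [PlusOn, Finset.mem_filter, Finset.mem_univ, true_and]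
    intro y hy
    rw [VF_mem_Box] at hy
    simp [VF_T, glue, hy]
  · intro σ _
    exact Finset.mem_univ _
  · intro η _
    funext x
    have hx := VF_mem_zBox.1 x.2
    rw [VF_T_red hn η (fun k => (hx k).trans (by linarith))]
    simp [glue]
  · intro σ hσ
    simp only [PlusOn, Finset.mem_filter, Finset.mem_univ, true_and] at hσ
    funext y
    by_cases hy : VF_lift y ∈ zBox L (0 : ZSite d)
    · simp [VF_T, glue, hy, VF_red_lift]
    · rw [hσ y (by rw [VF_mem_Box]; exact hy)]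
      simp [VF_T, glue, hy]
  · intro η _
    rfl

lemma VF_lift_zero : VF_lift (0 : Site d (n + 3)) = 0 := by
  funext k
  simp [VF_lift]

end VF_sec

theorem VF : VF_stmt := by
  intro d β L n hn
  unfold ExD gam
  rw [VF_sum hn, VF_sum hn]
  have h1 : ∀ η : {x // x ∈ zBox L (0 : ZSite d)} → Bool,
      zwt β 0 (zBox L 0) (glue (zBox L 0) η (fun _ => true)) *
        sg (glue (zBox L 0) η (fun _ => true) 0) =
      Real.exp (β * ((tE (zBox L (0 : ZSite d))).card : ℝ)) *
        (W β (VF_T n L η) * sg (VF_T n L η 0)) := by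
    intro η
    rw [VF_W (n := n) hn, mul_assoc]
    simp only [VF_T, VF_lift_zero]
  rw [Finset.sum_congr rfl (fun η _ => h1 η), Finset.sum_congr rfl (fun η _ => VF_W (n := n) hn β η)]
  rw [← Finset.mul_sum, ← Finset.mul_sum, mul_div_mul_left _ _ (Real.exp_pos _).ne']

end CU
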