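import Pool.Agent.helper23.CU.SpecU

open Finset Filter Topology

namespace CU

section VA_sec

variable {d : ℕ}

lemma VA_edge (a b c e : Bool) : sg a * sg b + sg c * sg e ≤
    sg (a ⊓ c) * sg (b ⊓ e) + sg (a ⊔ c) * sg (b ⊔ e) := by
  cases a <;> cases b <;> cases c <;> cases e <;> norm_num [sg]

lemma VA_zwt (β : ℝ) (hβ : 0 ≤ β) (Λ : Finset (ZSite d)) (σ τ : ZConf d) :
    zwt β 0 Λ σ * zwt β 0 Λ τ ≤ zwt β 0 Λ (σ ⊓ τ) * zwt β 0 Λ (σ ⊔ τ) := by
  unfold zwt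
  rw [← Real.exp_add, ← Real.exp_add, Real.exp_le_exp]
  simp only [zero_mul, add_zero]
  rw [← mul_add, ← mul_add, ← Finset.sum_add_distrib, ← Finset.sum_add_distrib]
  refine mul_le_mul_of_nonneg_left (Finset.sum_le_sum fun e _ => ?_) hβ
  exact VA_edge _ _ _ _

lemma VA_glue_inf {Λ : Finset (ZSite d)} (a b : {x // x ∈ Λ} → Bool) {ω ω' : ZConf d} (h : ω ≤ ω') :
    glue Λ (a ⊓ b) ω = glue Λ a ω ⊓ glue Λ b ω' := by
  funext x
  by_cases hx : x ∈ Λ
  · simp [glue, hx]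
  · simp only [glue, hx, dif_neg, not_false_eq_true, Pi.inf_apply]
    exact (inf_eq_left.2 (h x)).symm

lemma VA_glue_sup {Λ : Finset (ZSite d)} (a b : {x // x ∈ Λ} → Bool) {ω ω' : ZConf d} (h : ω ≤ ω') :
    glue Λ (a ⊔ b) ω' = glue Λ a ω ⊔ glue Λ b ω' := by
  funext x
  by_cases hx : x ∈ Λ
  · simp [glue, hx]
  · simp only [glue, hx, dif_neg, not_false_eq_true, Pi.sup_apply]
    exact (sup_eq_right.2 (h x)).symm

lemma VA_glue_mono {Λ : Finset (ZSite d)} {a b : {x // x ∈ Λ} → Bool} (hab : a ≤ b) {ω ω' : ZConf d}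
    (h : ω ≤ ω') : glue Λ a ω ≤ glue Λ b ω' := by
  intro x
  by_cases hx : x ∈ Λ
  · simp only [glue, hx, dif_pos]
    exact hab _
  · simp only [glue, hx, dif_neg, not_false_eq_true]
    exact h x

lemma VA_pos (β : ℝ) (Λ : Finset (ZSite d)) (σ : ZConf d) : 0 < zwt β 0 Λ σ := Real.exp_pos _

lemma VA_Z_pos (β : ℝ) (Λ : Finset (ZSite d)) (ω : ZConf d) :
    0 < ∑ η : {x // x ∈ Λ} → Bool, zwt β 0 Λ (glue Λ η ω) :=
  Finset.sum_pos (fun _ _ => Real.exp_pos _) Finset.univ_nonempty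

end VA_sec

theorem VA : VA_stmt := by
  intro d β hβ Λ f hf ω ω' hω
  set Z := ∑ η : {x // x ∈ Λ} → Bool, zwt β 0 Λ (glue Λ η ω) with hZ
  set Z' := ∑ η : {x // x ∈ Λ} → Bool, zwt β 0 Λ (glue Λ η ω') with hZ'
  have hZp : 0 < Z := VA_Z_pos β Λ ω
  have hZp' : 0 < Z' := VA_Z_pos β Λ ω'
  set c := f (glue Λ ⊥ ω') with hc
  have key := holley (α := {x // x ∈ Λ} → Bool)
    (μ := fun η => f (glue Λ η ω') - c)
    (f := fun η => zwt β 0 Λ (glue Λ η ω) / Z)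
    (g := fun η => zwt β 0 Λ (glue Λ η ω') / Z')
    (fun η => sub_nonneg.2 (hf (VA_glue_mono bot_le le_rfl)))
    (fun η => div_nonneg (VA_pos _ _ _).le hZp.le)
    (fun η => div_nonneg (VA_pos _ _ _).le hZp'.le)
    (fun a b hab => sub_le_sub_right (hf (VA_glue_mono hab le_rfl)) c)
    (by
      rw [← Finset.sum_div, ← Finset.sum_div, div_self hZp.ne', div_self hZp'.ne'])
    (by
      intro a b
      rw [div_mul_div_comm, div_mul_div_comm]
      refine div_le_div_of_nonneg_right ?_ (mul_pos hZp hZp').le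
      rw [VA_glue_inf a b hω, VA_glue_sup a b hω]
      exact VA_zwt β hβ Λ _ _)
  have e1 : gam β 0 Λ f ω ≤ ∑ η : {x // x ∈ Λ} → Bool, (f (glue Λ η ω') - c) * (zwt β 0 Λ (glue Λ η ω) / Z) + c := by
    have h1 : ∑ η : {x // x ∈ Λ} → Bool, (f (glue Λ η ω') - c) * (zwt β 0 Λ (glue Λ η ω) / Z) + c =
        (∑ η : {x // x ∈ Λ} → Bool, zwt β 0 Λ (glue Λ η ω) * f (glue Λ η ω')) / Z := by
      have h2 : ∀ η : {x // x ∈ Λ} → Bool, (f (glue Λ η ω') - c) * (zwt β 0 Λ (glue Λ η ω) / Z) =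
          zwt β 0 Λ (glue Λ η ω) * f (glue Λ η ω') / Z - c * (zwt β 0 Λ (glue Λ η ω) / Z) := by
        intro η; ring
      rw [Finset.sum_congr rfl (fun η _ => h2 η), Finset.sum_sub_distrib, ← Finset.mul_sum, ← Finset.sum_div,
        ← Finset.sum_div, ← hZ, div_self hZp.ne']
      ring
    rw [h1]
    unfold gam
    rw [← hZ]
    refine div_le_div_of_nonneg_right (Finset.sum_le_sum fun η _ => ?_) hZp.le
    exact mul_le_mul_of_nonneg_left (hf (VA_glue_mono le_rfl hω)) (VA_pos _ _ _).le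
  have e2 : ∑ η : {x // x ∈ Λ} → Bool, (f (glue Λ η ω') - c) * (zwt β 0 Λ (glue Λ η ω') / Z') + c = gam β 0 Λ f ω' := by
    have h2 : ∀ η : {x // x ∈ Λ} → Bool, (f (glue Λ η ω') - c) * (zwt β 0 Λ (glue Λ η ω') / Z') =
        zwt β 0 Λ (glue Λ η ω') * f (glue Λ η ω') / Z' - c * (zwt β 0 Λ (glue Λ η ω') / Z') := by
      intro η; ring
    unfold gam
    rw [Finset.sum_congr rfl (fun η _ => h2 η), Finset.sum_sub_distrib, ← Finset.mul_sum, ← Finset.sum_div,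
      ← Finset.sum_div, ← hZ', div_self hZp'.ne']
    ring
  rw [← e2]
  exact e1.trans (by simpa using key)

end CU
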