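import Pool.Agent.helper23.CU.SpecU

open Finset Filter Topology MeasureTheory

namespace CU

section VG_sec

variable {d : ℕ}

/-- the cylinder event -/
def VG_A (S : Finset (ZSite d)) : Set (ZConf d) := {σ | ∀ x ∈ S, σ x = true}

noncomputable def VG_f (S : Finset (ZSite d)) : ZConf d → ℝ := (VG_A S).indicator fun _ => 1

lemma VG_meas_A (S : Finset (ZSite d)) : MeasurableSet (VG_A S) := by
  have : VG_A S = ⋂ x ∈ S, (fun σ : ZConf d => σ x) ⁻¹' {true} := by
    ext σ
    simp [VG_A]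
  rw [this]
  refine Finset.measurableSet_biInter S fun x _ => ?_
  exact (measurable_pi_apply x) (measurableSet_singleton true)

lemma VG_meas_sg (x : ZSite d) : Measurable fun σ : ZConf d => sg (σ x) :=
  (measurable_of_countable sg).comp (measurable_pi_apply x)

lemma VG_meas_zwt (β : ℝ) (Λ : Finset (ZSite d)) : Measurable (zwt β 0 Λ) := by
  unfold zwt
  refine Real.measurable_exp.comp ?_
  refine Measurable.add ?_ ?_
  · refine Measurable.const_mul ?_ β
    refine Finset.measurable_sum _ fun e _ => ?_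
    exact (VG_meas_sg e.1).mul (VG_meas_sg (e.1 + zev e.2))
  · refine Measurable.const_mul ?_ 0
    exact Finset.measurable_sum _ fun x _ => VG_meas_sg x

lemma VG_meas_glue (Λ : Finset (ZSite d)) (η : {x // x ∈ Λ} → Bool) : Measurable (glue Λ η) := by
  rw [measurable_pi_iff]
  intro x
  by_cases hx : x ∈ Λ
  · simp only [glue, hx, dif_pos]
    exact measurable_const
  · simp only [glue, hx, dif_neg, not_false_eq_true]
    exact measurable_pi_apply x

lemma VG_meas_gam (β : ℝ) (Λ : Finset (ZSite d)) {f : ZConf d → ℝ} (hf : Measurable f) :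
    Measurable (gam β 0 Λ f) := by
  unfold gam
  refine Measurable.div ?_ ?_
  · refine Finset.measurable_sum _ fun η _ => ?_
    exact ((VG_meas_zwt β Λ).comp (VG_meas_glue Λ η)).mul (hf.comp (VG_meas_glue Λ η))
  · refine Finset.measurable_sum _ fun η _ => ?_
    exact (VG_meas_zwt β Λ).comp (VG_meas_glue Λ η)

lemma VG_bounds {β : ℝ} {Λ : Finset (ZSite d)} {A : Set (ZConf d)} (hA : MeasurableSet A) {a b : ℝ}
    (hab : ∀ ω, a ≤ gam β 0 Λ (A.indicator fun _ => 1) ω ∧ gam β 0 Λ (A.indicator fun _ => 1) ω ≤ b)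
    {μ : Measure (ZConf d)} (hμ : IsGibbs d β 0 μ) : a ≤ μ.real A ∧ μ.real A ≤ b := by
  have := hμ.1
  have hm : Measurable (gam β 0 Λ (A.indicator fun _ => 1)) :=
    VG_meas_gam β Λ (measurable_const.indicator hA)
  have hi : Integrable (gam β 0 Λ (A.indicator fun _ => 1)) μ := by
    refine Integrable.of_bound hm.aestronglyMeasurable (max |a| |b|) (Filter.Eventually.of_forall fun ω => ?_)
    rw [Real.norm_eq_abs]
    exact abs_le_max_abs_abs (hab ω).1 (hab ω).2
  rw [hμ.2 Λ A hA]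
  constructor
  · have := integral_mono (μ := μ) (integrable_const a) hi (fun ω => (hab ω).1)
    simpa using this
  · have := integral_mono (μ := μ) hi (integrable_const b) (fun ω => (hab ω).2)
    simpa using this

lemma VG_f_mono (S : Finset (ZSite d)) : Monotone (VG_f S) := by
  intro σ σ' h
  unfold VG_f
  by_cases hσ : σ ∈ VG_A S
  · have hσ' : σ' ∈ VG_A S := by
      intro x hx
      have h1 := h x
      rw [hσ x hx] at h1
      exact top_le_iff.1 h1
    rw [Set.indicator_of_mem hσ, Set.indicator_of_mem hσ']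
  · rw [Set.indicator_of_notMem hσ]
    exact Set.indicator_nonneg (fun _ _ => zero_le_one) _

noncomputable def VG_F (S : Finset (ZSite d)) (σ : ZConf d) : ℝ :=
  ∑ x ∈ S, (1 + sg (σ x)) / 2 - VG_f S σ

lemma VG_u_le {a b : Bool} (h : a ≤ b) : (1 + sg a) / 2 ≤ (1 + sg b) / 2 := by
  cases a <;> cases b
  · exact le_rfl
  · norm_num [sg]
  · exact absurd h (by decide)
  · exact le_rfl

lemma VG_F_mono (S : Finset (ZSite d)) : Monotone (VG_F S) := by
  intro σ σ' h
  unfold VG_F
  by_cases hσ' : σ' ∈ VG_A S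
  · by_cases hσ : σ ∈ VG_A S
    · unfold VG_f
      rw [Set.indicator_of_mem hσ, Set.indicator_of_mem hσ']
      have := Finset.sum_le_sum (s := S) fun x _ => VG_u_le (h x)
      linarith
    · have h0 : VG_f S σ = 0 := by unfold VG_f; rw [Set.indicator_of_notMem hσ]
      have h1 : VG_f S σ' = 1 := by unfold VG_f; rw [Set.indicator_of_mem hσ']
      rw [h0, h1]
      have hex : ∃ x₀ ∈ S, σ x₀ = false := by
        by_contra hcon
        push Not at hcon
        apply hσ
        intro x hx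
        simpa using hcon x hx
      obtain ⟨x₀, hx₀, hs⟩ := hex
      classical
      rw [← Finset.add_sum_erase S _ hx₀, ← Finset.add_sum_erase S (fun x => (1 + sg (σ' x)) / 2) hx₀]
      have := Finset.sum_le_sum (s := S.erase x₀) fun x _ => VG_u_le (h x)
      have e1 : (1 + sg (σ x₀)) / 2 = 0 := by rw [hs]; simp [sg]
      have e2 : (1 + sg (σ' x₀)) / 2 = 1 := by rw [hσ' x₀ hx₀]; norm_num [sg]
      rw [e1, e2]
      linarith
  · have hσ : σ ∉ VG_A S := by
      intro hσ
      apply hσ'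
      intro x hx
      have h1 := h x
      rw [hσ x hx] at h1
      exact top_le_iff.1 h1
    unfold VG_f
    rw [Set.indicator_of_notMem hσ, Set.indicator_of_notMem hσ']
    have := Finset.sum_le_sum (s := S) fun x _ => VG_u_le (h x)
    linarith

lemma VG_Z_pos (β : ℝ) (Λ : Finset (ZSite d)) (ω : ZConf d) :
    0 < ∑ η : {x // x ∈ Λ} → Bool, zwt β 0 Λ (glue Λ η ω) :=
  Finset.sum_pos (fun _ _ => Real.exp_pos _) Finset.univ_nonempty

lemma VG_lin (β : ℝ) (Λ S : Finset (ZSite d)) (ω : ZConf d) :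
    gam β 0 Λ (VG_F S) ω = ∑ x ∈ S, (1 + gam β 0 Λ (fun σ => sg (σ x)) ω) / 2 - gam β 0 Λ (VG_f S) ω := by
  have hZ := (VG_Z_pos β Λ ω).ne'
  unfold gam VG_F
  rw [eq_sub_iff_add_eq, ← add_div, ← Finset.sum_add_distrib, div_eq_iff hZ]
  have h1 : ∀ η : {x // x ∈ Λ} → Bool,
      zwt β 0 Λ (glue Λ η ω) * (∑ x ∈ S, (1 + sg (glue Λ η ω x)) / 2 - VG_f S (glue Λ η ω)) +
        zwt β 0 Λ (glue Λ η ω) * VG_f S (glue Λ η ω) =
      ∑ x ∈ S, (zwt β 0 Λ (glue Λ η ω) + zwt β 0 Λ (glue Λ η ω) * sg (glue Λ η ω x)) / 2 := by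
    intro η
    rw [← mul_add, sub_add_cancel, Finset.mul_sum]
    refine Finset.sum_congr rfl fun x _ => ?_
    ring
  rw [Finset.sum_congr rfl (fun η _ => h1 η), Finset.sum_comm, Finset.sum_mul]
  refine Finset.sum_congr rfl fun x _ => ?_
  rw [← Finset.sum_div, Finset.sum_add_distrib, div_mul_eq_mul_div, add_mul, one_mul, div_mul_cancel₀ _ hZ]

end VG_sec

theorem VG (hVA : VA_stmt) (hVE : VE_stmt) : VG_stmt := by
  intro d β hβ μ ν hμ hν S Λ
  set a := gam β 0 Λ (VG_f S) (fun _ => false) with ha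
  set b := gam β 0 Λ (VG_f S) (fun _ => true) with hb
  have hab : ∀ ω : ZConf d, a ≤ gam β 0 Λ ((VG_A S).indicator fun _ => 1) ω ∧
      gam β 0 Λ ((VG_A S).indicator fun _ => 1) ω ≤ b := by
    intro ω
    constructor
    · exact hVA d β hβ Λ _ (VG_f_mono S) _ _ (fun x => bot_le)
    · exact hVA d β hβ Λ _ (VG_f_mono S) _ _ (fun x => le_top)
  have h1 := VG_bounds (VG_meas_A S) hab hμ
  have h2 := VG_bounds (VG_meas_A S) hab hν
  have h3 : b - a ≤ ∑ x ∈ S, gam β 0 Λ (fun σ => sg (σ x)) (fun _ => true) := by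
    have h4 := hVA d β hβ Λ _ (VG_F_mono S) (fun _ => false) (fun _ => true) (fun x => bot_le)
    rw [VG_lin, VG_lin] at h4
    have h5 : ∑ x ∈ S, (1 + gam β 0 Λ (fun σ => sg (σ x)) (fun _ => true)) / 2 -
        ∑ x ∈ S, (1 + gam β 0 Λ (fun σ => sg (σ x)) (fun _ => false)) / 2 =
        ∑ x ∈ S, gam β 0 Λ (fun σ => sg (σ x)) (fun _ => true) := by
      rw [← Finset.sum_sub_distrib]
      refine Finset.sum_congr rfl fun x _ => ?_
      rw [hVE]
      ring
    rw [← h5]
    linarith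
  refine le_trans ?_ h3
  change |μ.real (VG_A S) - ν.real (VG_A S)| ≤ b - a
  rw [abs_le]
  constructor <;> linarith [h1.1, h1.2, h2.1, h2.2]

end CU
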