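import Pool.Agent.helper23.CU.SpecU

open Finset Filter Topology MeasureTheory

namespace CU

lemma VH_bound {d : ℕ} (S : Finset (ZSite d)) : ∃ K : ℕ, ∀ x ∈ S, ∀ k, |x k| ≤ K := by
  refine ⟨S.sup (fun x => univ.sup fun k => (x k).natAbs), fun x hx k => ?_⟩
  have h1 : (x k).natAbs ≤ univ.sup (fun k => (x k).natAbs) :=
    Finset.le_sup (f := fun k => (x k).natAbs) (Finset.mem_univ k)
  have h2 : univ.sup (fun k => (x k).natAbs) ≤ S.sup (fun x => univ.sup fun k => (x k).natAbs) :=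
    Finset.le_sup (f := fun x : ZSite d => univ.sup fun k => (x k).natAbs) hx
  rw [Int.abs_eq_natAbs]
  exact_mod_cast h1.trans h2

theorem VH (hVC : VC_stmt) (hVD : VD_stmt) (hVF : VF_stmt) (hVG : VG_stmt) (hVP : VP_stmt) : VH_stmt := by
  intro d β hβ μ ν hμ hν hne
  by_contra hS
  apply hne
  apply hVP d μ ν hμ.1 hν.1
  intro S
  obtain ⟨K, hK⟩ := VH_bound S
  have key : ∀ ε : ℝ, 0 < ε →
      |μ.real {σ | ∀ x ∈ S, σ x = true} - ν.real {σ | ∀ x ∈ S, σ x = true}| ≤ ε := by
    intro ε hε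
    have hc : (0 : ℝ) < S.card + 1 := by positivity
    have hm : 0 < ε / (S.card + 1) := div_pos hε hc
    have hex : ∃ L n : ℕ, 2 * L ≤ n ∧
        ExD (d := d) (n := n + 3) β (Box L 0) (fun σ => sg (σ 0)) < ε / (S.card + 1) := by
      by_contra hcon
      push Not at hcon
      exact hS ⟨_, hm, hcon⟩
    obtain ⟨L, n, hLn, hlt⟩ := hex
    rw [hVF d β L n hLn] at hlt
    refine (hVG d β hβ μ ν hμ hν S (zBox (L + K) 0)).trans ?_
    have hx : ∀ x ∈ S, gam β 0 (zBox (L + K) (0 : ZSite d)) (fun σ => sg (σ x)) (fun _ => true) ≤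
        ε / (S.card + 1) := by
      intro x hx
      have hsub : zBox L x ⊆ zBox (L + K) (0 : ZSite d) := by
        intro y hy
        simp only [zBox, Fintype.mem_piFinset, Finset.mem_Icc, Pi.zero_apply] at hy ⊢
        intro k
        have h1 := hy k
        have h2 := abs_le.1 (hK x hx k)
        push_cast
        constructor <;> omega
      refine (hVC d β hβ _ _ hsub x).trans ?_
      rw [hVD d β L x]
      exact hlt.le
    refine (Finset.sum_le_sum hx).trans ?_
    rw [Finset.sum_const, nsmul_eq_mul]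
    rw [← mul_div_assoc, div_le_iff₀ hc]
    nlinarith
  have h0 : |μ.real {σ | ∀ x ∈ S, σ x = true} - ν.real {σ | ∀ x ∈ S, σ x = true}| ≤ 0 :=
    le_of_forall_pos_le_add (fun ε hε => by simpa using key ε hε)
  have h1 := abs_nonneg (μ.real {σ | ∀ x ∈ S, σ x = true} - ν.real {σ | ∀ x ∈ S, σ x = true})
  exact sub_eq_zero.1 (abs_eq_zero.1 (le_antisymm h0 h1))

end CU
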