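import Pool.Agent.helper23.CU.Fin
import Pool.Agent.helper23.CU.VA
import Pool.Agent.helper64.CU.VB
import Pool.Agent.helper89.CU.VD
import Pool.Agent.helper89.CU.VE
import Pool.Agent.helper23.CU.VF
import Pool.Agent.helper89.CU.VP
import Pool.Agent.helper89.CU.VC
import Pool.Agent.helper23.CU.VG
import Pool.Agent.helper23.CU.VH

/-!
# Project cu: (MP_7c3fb3_pr), assembly of the planar theorem
-/

open Finset Filter Topology MeasureTheory

namespace CU

theorem a_VA : VA_stmt := VA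
theorem a_VB : VB_stmt := VB
theorem a_VD : VD_stmt := VD
theorem a_VE : VE_stmt := VE
theorem a_VF : VF_stmt := VF
theorem a_VP : VP_stmt := VP
theorem a_VC : VC_stmt := VC a_VA a_VB
theorem a_VG : VG_stmt := VG a_VA a_VE
theorem a_VH : VH_stmt := VH a_VC a_VD a_VF a_VG a_VP

/-- non-uniqueness at `β₁` implies no cutoff at every `β > β₁`, `d = 2` -/
theorem PLANAR (β₁ β : ℝ) (h0 : 0 ≤ β₁) (h1 : β₁ < β)
    (hne : ∃ μ ν : Measure (ZConf 2), IsGibbs 2 β₁ 0 μ ∧ IsGibbs 2 β₁ 0 ν ∧ μ ≠ ν) :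
    ¬ Cutoff 2 β 0 := by
  obtain ⟨μ, ν, hμ, hν, hne⟩ := hne
  exact RESULT.2 β₁ β h0 h1 (a_VH 2 β₁ h0 μ ν hμ hν hne)

end CU
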