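import Pool.Agent.helper23.CU.Model

/-!
# No cutoff for Ising Glauber dynamics on tori in the phase coexistence region: working definitions

An edge `(x, i)` is the nearest neighbour pair `{x, x + e_i}`.
-/

open Finset Filter Topology

namespace CU

abbrev Edge (d n : ℕ) := Site d n × Fin d

/-! ## Working definitions (zero field) -/

section work

variable {d n : ℕ} [NeZero n]

/-- the broken edges -/
def brk (σ : Conf d n) : Finset (Edge d n) := univ.filter fun e => σ e.1 ≠ σ (e.1 + ev e.2)

/-- weight `exp (-2β #broken)`, proportional to `wt β 0` -/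
noncomputable def W (β : ℝ) (σ : Conf d n) : ℝ := Real.exp (-2 * β * ((brk σ).card : ℝ))

/-- expectation under the torus measure -/
noncomputable def Ex (β : ℝ) (f : Conf d n → ℝ) : ℝ := (∑ σ, W β σ * f σ) / ∑ σ : Conf d n, W β σ

/-- probability under the torus measure -/
noncomputable def PrE (β : ℝ) (A : Set (Conf d n)) : ℝ := Ex β (A.indicator fun _ => 1)

/-- heat bath at `x` -/
noncomputable def Kx (β : ℝ) (x : Site d n) (f : Conf d n → ℝ) (σ : Conf d n) : ℝ :=
  (W β (Function.update σ x true) * f (Function.update σ x true) +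
    W β (Function.update σ x false) * f (Function.update σ x false)) /
  (W β (Function.update σ x true) + W β (Function.update σ x false))

/-- the transition operator on functions -/
noncomputable def Pf (β : ℝ) (f : Conf d n → ℝ) (σ : Conf d n) : ℝ :=
  (∑ x : Site d n, Kx β x f σ) / (Fintype.card (Site d n) : ℝ)

def plus : Conf d n := fun _ => true

def flipc (σ : Conf d n) : Conf d n := fun x => !σ x

/-- total magnetisation -/
noncomputable def Mg (σ : Conf d n) : ℝ := ∑ x, sg (σ x)

/-- `g_s = P^s M` -/
noncomputable def gs (β : ℝ) (s : ℕ) : Conf d n → ℝ := (Pf β)^[s] Mg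

/-! ### plus boundary conditions outside a set `D` -/

/-- configurations equal to `+` outside `D` -/
def PlusOn (D : Finset (Site d n)) : Finset (Conf d n) := univ.filter fun σ => ∀ x, x ∉ D → σ x = true

noncomputable def ExD (β : ℝ) (D : Finset (Site d n)) (f : Conf d n → ℝ) : ℝ :=
  (∑ σ ∈ PlusOn D, W β σ * f σ) / ∑ σ ∈ PlusOn D, W β σ

/-- replace the spins outside `D` by `+` -/
def ext (D : Finset (Site d n)) (σ : Conf d n) : Conf d n := fun x => if x ∈ D then σ x else true

/-- the (lazy) chain in `D` with plus boundary conditions -/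
noncomputable def PD (β : ℝ) (D : Finset (Site d n)) (f : Conf d n → ℝ) (σ : Conf d n) : ℝ :=
  Pf β f (ext D σ)

end work

/-! ### distances, boxes, clusters of broken edges -/

section geom

variable {d n : ℕ}

/-- all coordinate differences are at most `r` (cyclically) -/
def Near (r : ℕ) (x y : Site d n) : Prop := ∀ k, (y k - x k).valMinAbs.natAbs ≤ r

instance (r : ℕ) (x y : Site d n) : Decidable (Near r x y) := by unfold Near; infer_instance

/-- nearest neighbours -/
def nn (x y : Site d n) : Prop := ∃ i : Fin d, y = x + ev i ∨ x = y + ev i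

/-- the four edges of the square `x, x+e_i, x+e_j, x+e_i+e_j` -/
def sq (x : Site d n) (i j : Fin d) : Finset (Edge d n) := {(x, i), (x, j), (x + ev i, j), (x + ev j, i)}

/-- two different edges in a common square -/
def sqAdj (e e' : Edge d n) : Prop := e ≠ e' ∧ ∃ x i j, i ≠ j ∧ e ∈ sq x i j ∧ e' ∈ sq x i j

/-- a set of edges contains an even number of the edges of each square (the `ZMod 2` cochain is closed) -/
def Closed (K : Finset (Edge d n)) : Prop := ∀ (x : Site d n) (i j : Fin d), i ≠ j →
  (if (x, i) ∈ K then (1 : ZMod 2) else 0) + (if (x + ev i, j) ∈ K then 1 else 0) +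
    (if (x + ev j, i) ∈ K then 1 else 0) + (if (x, j) ∈ K then 1 else 0) = 0

/-- `τ` is a potential of `K` -/
def IsPot (K : Finset (Edge d n)) (τ : Site d n → ZMod 2) : Prop :=
  ∀ (x : Site d n) (i : Fin d), τ (x + ev i) - τ x = if (x, i) ∈ K then 1 else 0

/-- potential vanishing away from `K` -/
def PotS (r : ℕ) (K : Finset (Edge d n)) (τ : Site d n → ZMod 2) : Prop :=
  IsPot K τ ∧ ∀ e ∈ K, ∀ x, ¬ Near (r + 1) e.1 x → τ x = 0

open Classical in
noncomputable def pot (r : ℕ) (K : Finset (Edge d n)) : Site d n → ZMod 2 :=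
  if h : ∃ τ, PotS r K τ then h.choose else 0

variable [NeZero n]

/-- the box `v + {-L..L}^d` -/
def Box (L : ℕ) (v : Site d n) : Finset (Site d n) := univ.filter fun x => Near L v x

/-- graph of broken edges -/
def Gr (σ : Conf d n) : SimpleGraph (Edge d n) where
  Adj e e' := sqAdj e e' ∧ e ∈ brk σ ∧ e' ∈ brk σ
  symm := ⟨fun e e' h => ⟨⟨h.1.1.symm, by
    obtain ⟨x, i, j, hij, h1, h2⟩ := h.1.2
    exact ⟨x, i, j, hij, h2, h1⟩⟩, h.2.2, h.2.1⟩⟩
  loopless := ⟨fun e h => h.1.1 rfl⟩

/-- every cluster of broken edges has all coordinate differences at most `r` -/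
def Good (r : ℕ) (σ : Conf d n) : Prop :=
  ∀ e ∈ brk σ, ∀ e', (Gr σ).Reachable e e' → Near r e.1 e'.1

open Classical in
/-- the cluster of `e` -/
noncomputable def clus (σ : Conf d n) (e : Edge d n) : Finset (Edge d n) :=
  (brk σ).filter fun e' => (Gr σ).Reachable e e'

open Classical in
noncomputable def clusters (σ : Conf d n) : Finset (Finset (Edge d n)) := (brk σ).image (clus σ)

def bv (b : Bool) : ZMod 2 := if b then 1 else 0

/-- the global phase -/
noncomputable def eps (r : ℕ) (σ : Conf d n) : ZMod 2 := bv (σ 0) - ∑ K ∈ clusters σ, pot r K 0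

/-- the plus phase -/
def Ph (r : ℕ) : Set (Conf d n) := {σ | Good r σ ∧ eps r σ = 1}

/-- nearest neighbour connection inside `B` through minus sites (starting point excluded) -/
def ConnM (B : Finset (Site d n)) (σ : Conf d n) : Site d n → Site d n → Prop :=
  Relation.ReflTransGen fun a b => nn a b ∧ σ b = false ∧ b ∈ B

/-- exponential tail of the clusters of broken edges, uniformly in the side `n + 3` of the torus -/
def TailB (d : ℕ) (β : ℝ) : Prop := ∃ C c : ℝ, ∃ k : ℕ, 0 < C ∧ 0 < c ∧ ∀ n r : ℕ,
  PrE (d := d) (n := n + 3) β {σ | ¬ Good r σ} ≤ C * ((n : ℝ) + 3) ^ k * Real.exp (-c * r)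

/-- spontaneous magnetisation: the magnetisation at the centre of the box `{-L..L}^d` with plus
boundary conditions is bounded below uniformly in `L` (the box sits in a torus of any side
`≥ 2L + 3`, all spins outside the box are `+`) -/
def SpontMag (d : ℕ) (β : ℝ) : Prop := ∃ m : ℝ, 0 < m ∧ ∀ L n : ℕ, 2 * L ≤ n →
  m ≤ ExD (d := d) (n := n + 3) β (Box L 0) (fun σ => sg (σ 0))

end geom

end CU
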