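import Pool.Agent.helper23.CU.Spec

open Finset Filter Topology

namespace CU

section EX_sec

variable {d n : ℕ} [NeZero n]

lemma EX_nn_symm {x y : Site d n} (h : nn x y) : nn y x := by
  obtain ⟨i, h | h⟩ := h
  · exact ⟨i, Or.inr h⟩
  · exact ⟨i, Or.inl h⟩

/-- inner boundary site -/
def EX_ib (B : Finset (Site d n)) (x : Site d n) : Prop := x ∈ B ∧ ∃ y, y ∉ B ∧ nn x y

/-- reached sites -/
def EX_C (B : Finset (Site d n)) (σ : Conf d n) (y : Site d n) : Prop :=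
  ∃ x, EX_ib B x ∧ σ x = false ∧ ConnM B σ x y

/-- unexplored sites, as a predicate -/
def EX_DP (B : Finset (Site d n)) (σ : Conf d n) (x : Site d n) : Prop :=
  x ∈ B ∧ ¬ EX_ib B x ∧ ¬ EX_C B σ x ∧ ∀ y, nn x y → ¬ EX_C B σ y

open Classical in
noncomputable def EX_D (B : Finset (Site d n)) (σ : Conf d n) : Finset (Site d n) :=
  univ.filter fun x => EX_DP B σ x

lemma EX_mem_D {B : Finset (Site d n)} {σ : Conf d n} {x : Site d n} :
    x ∈ EX_D B σ ↔ EX_DP B σ x := by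
  classical
  simp [EX_D]

lemma EX_D_sub (B : Finset (Site d n)) (σ : Conf d n) : EX_D B σ ⊆ B := by
  intro x hx
  exact (EX_mem_D.1 hx).1

/-- neighbours of the unexplored set outside of it are plus -/
lemma EX_plus {B : Finset (Site d n)} {σ : Conf d n} {x x' : Site d n} (hx' : EX_DP B σ x')
    (hx : ¬ EX_DP B σ x) (h : nn x' x) : σ x = true := by
  by_contra hs
  have hs : σ x = false := by simpa using hs
  have hxB : x ∈ B := by
    by_contra hxB
    exact hx'.2.1 ⟨hx'.1, x, hxB, h⟩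
  have hxC : ¬ EX_C B σ x := hx'.2.2.2 x h
  have hxb : ¬ EX_ib B x := by
    intro hb
    exact hxC ⟨x, hb, hs, Relation.ReflTransGen.refl⟩
  apply hx
  refine ⟨hxB, hxb, hxC, ?_⟩
  intro y hxy hy
  obtain ⟨z, hz, hzs, hzy⟩ := hy
  apply hxC
  exact ⟨z, hz, hzs, hzy.tail ⟨EX_nn_symm hxy, hs, hxB⟩⟩

lemma EX_C_sub {B : Finset (Site d n)} {σ σ' : Conf d n} (h : ∀ x, ¬ EX_DP B σ x → σ' x = σ x)
    {y : Site d n} (hy : EX_C B σ y) : EX_C B σ' y := by
  obtain ⟨x, hx, hs, hxy⟩ := hy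
  have hoff : ∀ z, EX_C B σ z → σ' z = σ z := by
    intro z hz
    exact h z (fun h => h.2.2.1 hz)
  have hxC : EX_C B σ x := ⟨x, hx, hs, Relation.ReflTransGen.refl⟩
  refine ⟨x, hx, by rw [hoff x hxC, hs], ?_⟩
  induction hxy with
  | refl => exact Relation.ReflTransGen.refl
  | @tail b c hab hbc ih =>
    apply ih.tail
    refine ⟨hbc.1, ?_, hbc.2.2⟩
    rw [hoff c ⟨x, hx, hs, hab.tail hbc⟩]
    exact hbc.2.1

lemma EX_C_sup {B : Finset (Site d n)} {σ σ' : Conf d n} (h : ∀ x, ¬ EX_DP B σ x → σ' x = σ x)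
    {y : Site d n} (hy : EX_C B σ' y) : EX_C B σ y := by
  obtain ⟨x, hx, hs, hxy⟩ := hy
  have hxD : ¬ EX_DP B σ x := fun h => h.2.1 hx
  have hxs : σ x = false := by rw [← h x hxD, hs]
  induction hxy with
  | refl => exact ⟨x, hx, hxs, Relation.ReflTransGen.refl⟩
  | @tail b c hab hbc ih =>
    have hcD : ¬ EX_DP B σ c := fun hc => hc.2.2.2 b (EX_nn_symm hbc.1) ih
    obtain ⟨z, hz, hzs, hzb⟩ := ih
    exact ⟨z, hz, hzs, hzb.tail ⟨hbc.1, by rw [← h c hcD, hbc.2.1], hbc.2.2⟩⟩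

lemma EX_C_iff {B : Finset (Site d n)} {σ σ' : Conf d n} (h : ∀ x, ¬ EX_DP B σ x → σ' x = σ x)
    (y : Site d n) : EX_C B σ' y ↔ EX_C B σ y := ⟨EX_C_sup h, EX_C_sub h⟩

lemma EX_DP_iff {B : Finset (Site d n)} {σ σ' : Conf d n} (h : ∀ x, ¬ EX_DP B σ x → σ' x = σ x)
    (y : Site d n) : EX_DP B σ' y ↔ EX_DP B σ y := by
  unfold EX_DP
  simp only [EX_C_iff h]

lemma EX_D_eq {B : Finset (Site d n)} {σ σ' : Conf d n} (h : ∀ x, x ∉ EX_D B σ → σ' x = σ x) :
    EX_D B σ' = EX_D B σ := by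
  ext y
  rw [EX_mem_D, EX_mem_D]
  apply EX_DP_iff
  intro x hx
  exact h x (fun h => hx (EX_mem_D.1 h))

lemma EX_reached_iff {B : Finset (Site d n)} {v : Site d n} {σ : Conf d n} :
    Reached B v σ ↔ ∃ y, EX_C B σ y ∧ (y = v ∨ nn y v) := by
  constructor
  · rintro ⟨x, hxB, ⟨y, hyB, hxy⟩, hs, z, hz, hzv⟩
    refine ⟨z, ⟨x, ⟨hxB, y, hyB, ?_⟩, hs, hz⟩, ?_⟩
    · rcases hxy with h | h
      · exact h
      · exact EX_nn_symm h
    · rcases hzv with h | h | h
      · exact Or.inl h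
      · exact Or.inr h
      · exact Or.inr (EX_nn_symm h)
  · rintro ⟨z, ⟨x, ⟨hxB, y, hyB, hxy⟩, hs, hz⟩, hzv⟩
    refine ⟨x, hxB, ⟨y, hyB, Or.inl hxy⟩, hs, z, hz, ?_⟩
    rcases hzv with h | h
    · exact Or.inl h
    · exact Or.inr (Or.inl h)

lemma EX_v_mem {B : Finset (Site d n)} {v : Site d n} {σ : Conf d n} (hv : v ∈ B)
    (hvB : ∀ y, nn v y ∨ nn y v → y ∈ B) (h : ¬ Reached B v σ) : v ∈ EX_D B σ := by
  rw [EX_mem_D]
  rw [EX_reached_iff] at h
  push Not at h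
  refine ⟨hv, ?_, ?_, ?_⟩
  · rintro ⟨_, y, hy, hvy⟩
    exact hy (hvB y (Or.inl hvy))
  · intro hC
    exact (h v hC).1 rfl
  · intro y hvy hC
    exact (h y hC).2 (EX_nn_symm hvy)

/-- number of broken edges: decomposition -/
lemma EX_brk (D : Finset (Site d n)) (σ₀ σ : Conf d n) (hoff : ∀ x, x ∉ D → σ x = σ₀ x)
    (hplus : ∀ x' ∈ D, ∀ x, x ∉ D → nn x' x → σ₀ x = true) :
    (brk σ).card = (brk (ext D σ)).card +
      ((brk σ₀).filter fun e => e.1 ∉ D ∧ e.1 + ev e.2 ∉ D).card := by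
  classical
  have h1 : (brk σ).card = ((brk σ).filter fun e => e.1 ∈ D ∨ e.1 + ev e.2 ∈ D).card +
      ((brk σ).filter fun e => ¬ (e.1 ∈ D ∨ e.1 + ev e.2 ∈ D)).card :=
    (Finset.card_filter_add_card_filter_not _).symm
  rw [h1]
  congr 1
  · congr 1
    ext e
    simp only [brk, Finset.mem_filter, Finset.mem_univ, true_and, ext]
    have hnn : nn e.1 (e.1 + ev e.2) := ⟨e.2, Or.inl rfl⟩
    by_cases ha : e.1 ∈ D <;> by_cases hb : e.1 + ev e.2 ∈ D
    · simp [ha, hb]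
    · have := hplus _ ha _ hb hnn
      simp [ha, hb, hoff _ hb, this]
    · have := hplus _ hb _ ha (EX_nn_symm hnn)
      simp [ha, hb, hoff _ ha, this]
    · simp [ha, hb]
  · congr 1
    ext e
    simp only [brk, Finset.mem_filter, Finset.mem_univ, true_and, not_or]
    constructor
    · rintro ⟨h1, h2, h3⟩
      rw [hoff _ h2, hoff _ h3] at h1
      exact ⟨h1, h2, h3⟩
    · rintro ⟨h1, h2, h3⟩
      rw [← hoff _ h2, ← hoff _ h3] at h1
      exact ⟨h1, h2, h3⟩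

lemma EX_mem_PlusOn {D : Finset (Site d n)} {σ : Conf d n} : σ ∈ PlusOn D ↔ ∀ x, x ∉ D → σ x = true := by
  simp [PlusOn]

lemma EX_W_pos (β : ℝ) (σ : Conf d n) : 0 < W β σ := Real.exp_pos _

lemma EX_plusOn_nonempty (D : Finset (Site d n)) : (plus : Conf d n) ∈ PlusOn D := by
  rw [EX_mem_PlusOn]
  intro x _
  rfl

lemma EX_Z_pos (β : ℝ) (D : Finset (Site d n)) : 0 < ∑ σ ∈ PlusOn D, W β σ :=
  Finset.sum_pos (fun σ _ => EX_W_pos β σ) ⟨plus, EX_plusOn_nonempty D⟩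

/-- the sum over a class -/
lemma EX_class (hFK : FK_stmt) (β : ℝ) (hβ : 0 ≤ β) (B : Finset (Site d n)) (v : Site d n)
    (σ₀ : Conf d n) (hv : v ∈ EX_D B σ₀) :
    0 ≤ ∑ σ ∈ (univ : Finset (Conf d n)).filter (fun σ => ∀ x, x ∉ EX_D B σ₀ → σ x = σ₀ x),
      W β σ * (sg (σ v) - ExD β B (fun η => sg (η v))) := by
  classical
  set D := EX_D B σ₀ with hD
  set m := ExD β B (fun η : Conf d n => sg (η v)) with hm
  set K : ℝ := Real.exp (-2 * β * (((brk σ₀).filter fun e => e.1 ∉ D ∧ e.1 + ev e.2 ∉ D).card : ℝ)) with hK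
  have hplus : ∀ x' ∈ D, ∀ x, x ∉ D → nn x' x → σ₀ x = true := by
    intro x' hx' x hx hn
    exact EX_plus (EX_mem_D.1 hx') (fun h => hx (EX_mem_D.2 h)) hn
  have key : ∑ σ ∈ (univ : Finset (Conf d n)).filter (fun σ => ∀ x, x ∉ D → σ x = σ₀ x),
      W β σ * (sg (σ v) - m) = ∑ η ∈ PlusOn D, K * (W β η * (sg (η v) - m)) := by
    refine Finset.sum_nbij' (fun σ => ext D σ) (fun η x => if x ∈ D then η x else σ₀ x) ?_ ?_ ?_ ?_ ?_
    · intro σ _
      rw [EX_mem_PlusOn]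
      intro x hx
      simp [ext, hx]
    · intro η _
      simp only [Finset.mem_filter, Finset.mem_univ, true_and]
      intro x hx
      simp [hx]
    · intro σ hσ
      simp only [Finset.mem_filter, Finset.mem_univ, true_and] at hσ
      funext x
      by_cases hx : x ∈ D
      · simp [ext, hx]
      · simp [hx, hσ x hx]
    · intro η hη
      rw [EX_mem_PlusOn] at hη
      funext x
      by_cases hx : x ∈ D
      · simp [ext, hx]
      · simp [ext, hx, hη x hx]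
    · intro σ hσ
      simp only [Finset.mem_filter, Finset.mem_univ, true_and] at hσ
      have h1 : W β σ = K * W β (ext D σ) := by
        unfold W
        rw [hK, ← Real.exp_add, EX_brk D σ₀ σ hσ hplus]
        congr 1
        push_cast
        ring
      have h2 : ext D σ v = σ v := by simp [ext, hv]
      rw [h1, h2]
      ring
  rw [key, ← Finset.mul_sum]
  apply mul_nonneg (Real.exp_pos _).le
  have hZ := EX_Z_pos β D
  have h3 : ∑ η ∈ PlusOn D, W β η * (sg (η v) - m) =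
      (∑ σ ∈ PlusOn D, W β σ) * (ExD β D (fun σ => sg (σ v)) - m) := by
    unfold ExD
    rw [mul_sub, mul_div_cancel₀ _ hZ.ne']
    rw [Finset.sum_mul, ← Finset.sum_sub_distrib]
    apply Finset.sum_congr rfl
    intro η _
    ring
  rw [h3]
  apply mul_nonneg hZ.le
  rw [sub_nonneg]
  exact hFK d n β hβ D B (EX_D_sub B σ₀) v

end EX_sec

theorem EX (hFK : FK_stmt) : EX_stmt := by
  intro d n _ β hβ B v C hv hvB hC
  classical
  set m := ExD β B (fun η : Conf d n => sg (η v)) with hm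
  unfold Ex
  apply div_nonneg _ (Finset.sum_nonneg fun σ _ => (EX_W_pos β σ).le)
  let key : Conf d n → Finset (Site d n) × Conf d n :=
    fun σ => (EX_D B σ, fun x => if x ∈ EX_D B σ then true else σ x)
  rw [← Finset.sum_fiberwise (univ : Finset (Conf d n)) key]
  apply Finset.sum_nonneg
  intro k _
  rcases Finset.eq_empty_or_nonempty ((univ : Finset (Conf d n)).filter (fun σ => key σ = k)) with h0 | h0
  · rw [h0]
    simp
  obtain ⟨σ₀, hσ₀⟩ := h0
  simp only [Finset.mem_filter, Finset.mem_univ, true_and] at hσ₀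
  have hfib : (univ : Finset (Conf d n)).filter (fun σ => key σ = k) =
      (univ : Finset (Conf d n)).filter (fun σ => ∀ x, x ∉ EX_D B σ₀ → σ x = σ₀ x) := by
    ext σ
    simp only [Finset.mem_filter, Finset.mem_univ, true_and]
    rw [← hσ₀]
    constructor
    · intro h x hx
      have h1 : EX_D B σ = EX_D B σ₀ := congrArg Prod.fst h
      have h2 := congrFun (congrArg Prod.snd h) x
      simp only [key] at h2
      rw [h1] at h2
      simpa [hx] using h2
    · intro h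
      have h1 : EX_D B σ = EX_D B σ₀ := EX_D_eq h
      simp only [key, Prod.mk.injEq]
      refine ⟨h1, ?_⟩
      funext x
      rw [h1]
      by_cases hx : x ∈ EX_D B σ₀
      · simp [hx]
      · simp [hx, h x hx]
  rw [hfib]
  have hcls : ∀ σ ∈ (univ : Finset (Conf d n)).filter (fun σ => ∀ x, x ∉ EX_D B σ₀ → σ x = σ₀ x),
      (σ ∈ C ∩ {σ | ¬ Reached B v σ} ↔ σ₀ ∈ C ∩ {σ | ¬ Reached B v σ}) := by
    intro σ hσ
    simp only [Finset.mem_filter, Finset.mem_univ, true_and] at hσ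
    have hh : ∀ x, ¬ EX_DP B σ₀ x → σ x = σ₀ x := fun x hx => hσ x (fun h => hx (EX_mem_D.1 h))
    have h1 : σ ∈ C ↔ σ₀ ∈ C := by
      apply hC
      intro x hx
      exact hσ x (fun h => hx (EX_D_sub B σ₀ h))
    have h2 : Reached B v σ ↔ Reached B v σ₀ := by
      rw [EX_reached_iff, EX_reached_iff]
      constructor
      · rintro ⟨y, hy, h⟩
        exact ⟨y, (EX_C_iff hh y).1 hy, h⟩
      · rintro ⟨y, hy, h⟩
        exact ⟨y, (EX_C_iff hh y).2 hy, h⟩
    simp only [Set.mem_inter_iff, Set.mem_ofPred_eq, h1, h2]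
  by_cases hin : σ₀ ∈ C ∩ {σ | ¬ Reached B v σ}
  · have hvD : v ∈ EX_D B σ₀ := EX_v_mem hv hvB hin.2
    have := EX_class hFK β hβ B v σ₀ hvD
    refine this.trans (le_of_eq ?_)
    apply Finset.sum_congr rfl
    intro σ hσ
    beta_reduce
    rw [Set.indicator_of_mem ((hcls σ hσ).2 hin)]
    ring
  · apply le_of_eq
    symm
    apply Finset.sum_eq_zero
    intro σ hσ
    beta_reduce
    rw [Set.indicator_of_notMem (fun h => hin ((hcls σ hσ).1 h))]
    ring

end CU
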