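import Pool.Agent.helper23.CU.SpecE

open Finset Filter Topology

namespace CU

section HA_sec

variable {n : ℕ}

lemma HA_fin2 (k : Fin 2) : 1 - (1 - k) = k := by
  fin_cases k <;> rfl

lemma HA_fin2_ne (k : Fin 2) : 1 - k ≠ k := by
  fin_cases k <;> decide

lemma HA_fin2_eq {i j : Fin 2} (h : i ≠ j) : j = 1 - i := by
  fin_cases i <;> fin_cases j <;> simp_all

lemma HA_ev_same (k : Fin 2) : (ev k : Site 2 n) k = 1 := by simp [ev]

lemma HA_ev_ne {k i : Fin 2} (h : k ≠ i) : (ev i : Site 2 n) k = 0 := by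
  simp [ev, h]

variable [NeZero n]

lemma HA_bd_eq (η : Finset (Edge 2 n)) (x : Site 2 n) :
    bd η x = ((if (x, (0 : Fin 2)) ∈ η then 1 else 0) + (if (x, (1 : Fin 2)) ∈ η then 1 else 0)) +
      ((if (x + ev 1, (0 : Fin 2)) ∈ η then 1 else 0) + (if (x + ev 0, (1 : Fin 2)) ∈ η then 1 else 0)) := by
  classical
  unfold bd
  rw [Finset.sum_add_distrib]
  congr 1
  · have h1 : ∑ e ∈ η, (if e.1 = x then (1 : ZMod 2) else 0) =
        ∑ e : Edge 2 n, if e ∈ η then (if e.1 = x then (1 : ZMod 2) else 0) else 0 := by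
      rw [Finset.sum_ite_mem, Finset.univ_inter]
    rw [h1, Fintype.sum_prod_type]
    have h2 : ∀ y : Site 2 n, (∑ i : Fin 2, if ((y, i) : Edge 2 n) ∈ η then (if ((y, i) : Edge 2 n).1 = x then (1 : ZMod 2) else 0) else 0) =
        if y = x then ((if (x, (0 : Fin 2)) ∈ η then 1 else 0) + (if (x, (1 : Fin 2)) ∈ η then 1 else 0)) else 0 := by
      intro y
      rw [Fin.sum_univ_two]
      by_cases hy : y = x
      · subst hy; simp
      · simp [hy]
    rw [Finset.sum_congr rfl (fun y _ => h2 y)]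
    simp
  · have h1 : ∑ e ∈ η, (if dn e = x then (1 : ZMod 2) else 0) =
        ∑ e : Edge 2 n, if e ∈ η then (if dn e = x then (1 : ZMod 2) else 0) else 0 := by
      rw [Finset.sum_ite_mem, Finset.univ_inter]
    rw [h1, Fintype.sum_prod_type, Finset.sum_comm, Fin.sum_univ_two]
    congr 1
    · have h2 : ∀ y : Site 2 n, (if ((y, (0 : Fin 2)) : Edge 2 n) ∈ η then (if dn ((y, (0 : Fin 2)) : Edge 2 n) = x then (1 : ZMod 2) else 0) else 0) =
          if y = x + ev 1 then (if (x + ev 1, (0 : Fin 2)) ∈ η then (1 : ZMod 2) else 0) else 0 := by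
        intro y
        have hd : dn ((y, (0 : Fin 2)) : Edge 2 n) = y - ev 1 := rfl
        rw [hd]
        by_cases hy : y = x + ev 1
        · subst hy; simp
        · have : ¬ (y - ev 1 = x) := fun h => hy (by rw [← h]; abel)
          simp [hy, this]
      rw [Finset.sum_congr rfl (fun y _ => h2 y)]
      simp
    · have h2 : ∀ y : Site 2 n, (if ((y, (1 : Fin 2)) : Edge 2 n) ∈ η then (if dn ((y, (1 : Fin 2)) : Edge 2 n) = x then (1 : ZMod 2) else 0) else 0) =
          if y = x + ev 0 then (if (x + ev 0, (1 : Fin 2)) ∈ η then (1 : ZMod 2) else 0) else 0 := by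
        intro y
        have hd : dn ((y, (1 : Fin 2)) : Edge 2 n) = y - ev 0 := rfl
        rw [hd]
        by_cases hy : y = x + ev 0
        · subst hy; simp
        · have : ¬ (y - ev 0 = x) := fun h => hy (by rw [← h]; abel)
          simp [hy, this]
      rw [Finset.sum_congr rfl (fun y _ => h2 y)]
      simp

lemma HA_closed {η : Finset (Edge 2 n)} (h : bd η = 0) : Closed η := by
  intro x i j hij
  have h0 := congrFun h x
  rw [HA_bd_eq] at h0
  have hj := HA_fin2_eq hij
  subst hj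
  simp only [Pi.zero_apply] at h0
  fin_cases i
  · refine Eq.trans ?_ h0
    simp only [Fin.zero_eta, Fin.isValue, sub_zero]
    ring
  · refine Eq.trans ?_ h0
    simp only [Fin.mk_one, Fin.isValue, sub_self]
    ring

lemma HA_memBox {r : ℕ} {u x : Site 2 n} : x ∈ Box r u ↔ Near r u x := by
  simp [Box]

lemma HA_memPlusOn {D : Finset (Site 2 n)} {σ : Conf 2 n} : σ ∈ PlusOn D ↔ ∀ x, x ∉ D → σ x = true := by
  simp [PlusOn]

/-- an edge at a site of `DS` is in `FS` -/
lemma HA_FS1 {r : ℕ} {u y : Site 2 n} (hy : y ∈ DS r u) (k : Fin 2) : (y, k) ∈ FS r u := by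
  simp only [DS, Finset.mem_filter, Finset.mem_univ, true_and] at hy
  obtain ⟨h1, h2, h3, h4⟩ := hy
  simp only [FS, Finset.mem_filter, Finset.mem_univ, true_and]
  refine ⟨h1, ?_⟩
  fin_cases k
  · exact h3
  · exact h2

lemma HA_FS2 {r : ℕ} {u y : Site 2 n} {k : Fin 2} (hy : y + ev k ∈ DS r u) : (y, k) ∈ FS r u := by
  simp only [DS, Finset.mem_filter, Finset.mem_univ, true_and] at hy
  obtain ⟨h1, h2, h3, h4⟩ := hy
  simp only [FS, Finset.mem_filter, Finset.mem_univ, true_and]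
  fin_cases k
  · simp only [Fin.zero_eta, Fin.isValue, add_sub_cancel_right] at h1 h2 h3 h4
    exact ⟨h2, h4⟩
  · simp only [Fin.mk_one, Fin.isValue, add_sub_cancel_right] at h1 h2 h3 h4
    refine ⟨h3, ?_⟩
    have : y + ev 1 - ev 0 - ev 1 = y - ev (0 : Fin 2) := by abel
    rw [this] at h4
    exact h4

lemma HA_brk_sub {r : ℕ} {u : Site 2 n} {σ : Conf 2 n} (hσ : σ ∈ PlusOn (DS r u)) : brk σ ⊆ FS r u := by
  intro e he
  simp only [brk, Finset.mem_filter, Finset.mem_univ, true_and] at he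
  rw [HA_memPlusOn] at hσ
  by_cases h1 : e.1 ∈ DS r u
  · exact HA_FS1 h1 e.2
  · by_cases h2 : e.1 + ev e.2 ∈ DS r u
    · exact HA_FS2 h2
    · exact absurd (by rw [hσ _ h1, hσ _ h2]) he

/-- a coordinate `k` such that no dual edge of `FS` crosses the line through `x` in the other direction -/
lemma HA_coord {r : ℕ} {u x : Site 2 n} (hx : x ∉ DS r u) : ∃ k : Fin 2,
    r < (x k - u k).valMinAbs.natAbs ∨ r < (x k - 1 - u k).valMinAbs.natAbs := by
  by_contra hcon
  push Not at hcon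
  apply hx
  simp only [DS, Finset.mem_filter, Finset.mem_univ, true_and, HA_memBox]
  refine ⟨fun k => (hcon k).1, fun k => ?_, fun k => ?_, fun k => ?_⟩
  · fin_cases k
    · have := (hcon 0).2
      simpa [ev] using this
    · have := (hcon 1).1
      simpa [ev] using this
  · fin_cases k
    · have := (hcon 0).1
      simpa [ev] using this
    · have := (hcon 1).2
      simpa [ev] using this
  · fin_cases k
    · have := (hcon 0).2
      simpa [ev] using this
    · have := (hcon 1).2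
      simpa [ev] using this

lemma HA_notFS {r : ℕ} {u x : Site 2 n} {k : Fin 2}
    (hk : r < (x k - u k).valMinAbs.natAbs ∨ r < (x k - 1 - u k).valMinAbs.natAbs) :
    (x, 1 - k) ∉ FS r u := by
  intro h
  simp only [FS, Finset.mem_filter, Finset.mem_univ, true_and, HA_memBox] at h
  obtain ⟨h1, h2⟩ := h
  have h1 := h1 k
  have h2 := h2 k
  have h3 : (dn ((x, 1 - k) : Edge 2 n)) k = x k - 1 := by
    simp only [dn, Pi.sub_apply, HA_fin2, HA_ev_same]
  rw [h3] at h2
  omega

lemma HA_walk {r : ℕ} {u : Site 2 n} {K : Finset (Edge 2 n)} (hK : K ⊆ FS r u) {τ : Site 2 n → ZMod 2}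
    (hτ : IsPot K τ) {x : Site 2 n} {k : Fin 2}
    (hk : r < (x k - u k).valMinAbs.natAbs ∨ r < (x k - 1 - u k).valMinAbs.natAbs) (t : ℕ) :
    τ (x + t • ev (1 - k)) = τ x := by
  induction t with
  | zero => simp
  | succ t ih =>
    have h1 := hτ (x + t • ev (1 - k)) (1 - k)
    have h2 : (x + t • ev (1 - k), 1 - k) ∉ K := by
      intro h
      refine HA_notFS (x := x + t • ev (1 - k)) (k := k) ?_ (hK h)
      have : (x + t • ev (1 - k) : Site 2 n) k = x k := by
        simp [HA_ev_ne (HA_fin2_ne k).symm]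
      rw [this]
      exact hk
    rw [if_neg h2, sub_eq_zero] at h1
    rw [← ih, ← h1]
    congr 1
    rw [add_smul, one_smul]
    abel

lemma HA_valMinAbs {a : ℕ} (h : 2 * a ≤ n) : ((a : ZMod n)).valMinAbs = a := by
  apply ZMod.valMinAbs_natCast_of_le_half
  omega

lemma HA_zero {r : ℕ} (hn : 4 * r + 8 ≤ n) {u : Site 2 n} {K : Finset (Edge 2 n)} (hK : K ⊆ FS r u)
    (hKn : K.Nonempty) {τ : Site 2 n → ZMod 2} (hτ : PotS (2 * r) K τ) {x : Site 2 n} (hx : x ∉ DS r u) :
    τ x = 0 := by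
  obtain ⟨k, hk⟩ := HA_coord hx
  obtain ⟨e, he⟩ := hKn
  rw [← HA_walk hK hτ.1 hk ((e.1 (1 - k) + ((2 * r + 2 : ℕ) : ZMod n) - x (1 - k)).val)]
  apply hτ.2 e he
  intro hN
  have h1 := hN (1 - k)
  have h2 : (x + (e.1 (1 - k) + ((2 * r + 2 : ℕ) : ZMod n) - x (1 - k)).val • ev (1 - k) : Site 2 n) (1 - k) - e.1 (1 - k) =
      ((2 * r + 2 : ℕ) : ZMod n) := by
    rw [Pi.add_apply, Pi.smul_apply, HA_ev_same, nsmul_eq_mul, mul_one, ZMod.natCast_zmod_val]
    ring
  rw [h2, HA_valMinAbs (by omega)] at h1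
  simp only [Int.natAbs_natCast] at h1
  omega

lemma HA_exists_out {r : ℕ} (hn : 4 * r + 8 ≤ n) (u : Site 2 n) : ∃ y, y ∉ DS r u := by
  refine ⟨u + Pi.single 0 ((2 * r + 2 : ℕ) : ZMod n), ?_⟩
  intro h
  simp only [DS, Finset.mem_filter, Finset.mem_univ, true_and, HA_memBox] at h
  have h1 := h.1 0
  simp only [Pi.add_apply, Pi.single_eq_same, add_sub_cancel_left] at h1
  rw [HA_valMinAbs (by omega)] at h1
  simp only [Int.natAbs_natCast] at h1
  omega

lemma HA_zmod2 (a b : ZMod 2) : (decide (a = 0) ≠ decide (b = 0)) ↔ b - a ≠ 0 := by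
  revert a b
  decide

lemma HA_surj (hPO : PO_stmt) {r : ℕ} (hn : 4 * r + 8 ≤ n) {u : Site 2 n} {ζ : Finset (Edge 2 n)}
    (hζ : ζ ⊆ FS r u) (h0 : bd ζ = 0) : ∃ σ ∈ PlusOn (DS r u), brk σ = ζ := by
  rcases ζ.eq_empty_or_nonempty with he | hne
  · refine ⟨plus, ?_, ?_⟩
    · rw [HA_memPlusOn]
      intro x _
      rfl
    · rw [he]
      simp [brk, plus]
  · have hnear : ∀ e ∈ ζ, ∀ e' ∈ ζ, Near (2 * r) e.1 e'.1 := by
      intro e he e' he' k
      have h1 := hζ he
      have h2 := hζ he'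
      simp only [FS, Finset.mem_filter, Finset.mem_univ, true_and, HA_memBox] at h1 h2
      have a1 := h1.1 k
      have a2 := h2.1 k
      have : e'.1 k - e.1 k = (e'.1 k - u k) + -(e.1 k - u k) := by ring
      rw [this]
      have h3 := ZMod.natAbs_valMinAbs_add_le (e'.1 k - u k) (-(e.1 k - u k))
      have h4 : (-(e.1 k - u k)).valMinAbs.natAbs = (e.1 k - u k).valMinAbs.natAbs :=
        ZMod.natAbs_valMinAbs_neg _
      have h5 := Int.natAbs_add_le (e'.1 k - u k).valMinAbs (-(e.1 k - u k)).valMinAbs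
      omega
    obtain ⟨τ, hτ⟩ := hPO 2 n (2 * r) le_rfl (by omega) ζ hne (HA_closed h0) hnear
    refine ⟨fun x => decide (τ x = 0), ?_, ?_⟩
    · rw [HA_memPlusOn]
      intro x hx
      simp [HA_zero hn hζ hne hτ hx]
    · ext e
      simp only [brk, Finset.mem_filter, Finset.mem_univ, true_and]
      rw [HA_zmod2, hτ.1 e.1 e.2]
      by_cases h : e ∈ ζ
      · simp [h]
      · simp [h]

end HA_sec

theorem HA (hPO : PO_stmt) (hRB : RB_stmt) (hQA : QA_stmt) : HA_stmt := by
  intro n r _ hn u γ hγ b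
  classical
  have hn3 : 3 ≤ n := by omega
  have hbd : ∀ η ζ : Finset (Edge 2 n), bd (symmDiff η ζ) = bd η + bd ζ := (hQA n hn3).1
  have hx2 : ∀ f : Site 2 n → ZMod 2, f + f = 0 := by
    intro f
    funext x
    simp only [Pi.add_apply, Pi.zero_apply]
    generalize f x = a
    revert a
    decide
  have hsub : ∀ {a b c : Finset (Edge 2 n)}, a ⊆ c → b ⊆ c → symmDiff a b ⊆ c := by
    intro a b c ha hb e he
    rw [Finset.mem_symmDiff] at he
    rcases he with h | h
    · exact ha h.1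
    · exact hb h.1
  unfold Zs ZG
  symm
  refine Finset.sum_nbij (fun σ => symmDiff (brk σ) γ) ?_ ?_ ?_ ?_
  · intro σ hσ
    simp only [Finset.mem_filter, Finset.mem_powerset]
    refine ⟨hsub (HA_brk_sub hσ) hγ, ?_⟩
    rw [hbd, (hRB n hn3).1, zero_add]
  · intro σ hσ σ' hσ' h
    simp only at h
    have h1 : brk σ = brk σ' := by
      have := congrArg (fun s => symmDiff s γ) h
      simpa using this
    rcases (hRB n hn3).2 σ σ' h1 with h2 | h2
    · exact h2.symm
    · exfalso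
      obtain ⟨y, hy⟩ := HA_exists_out hn u
      have a1 := HA_memPlusOn.1 hσ y hy
      have a2 := HA_memPlusOn.1 hσ' y hy
      rw [h2] at a2
      simp [flipc, a1] at a2
  · intro η hη
    simp only [Finset.coe_filter, Finset.mem_powerset, Set.mem_ofPred_eq] at hη
    obtain ⟨σ, hσ, hb⟩ := HA_surj hPO hn (hsub hη.1 hγ) (by rw [hbd, hη.2, hx2])
    refine ⟨σ, hσ, ?_⟩
    simp only
    rw [hb]
    simp
  · intro σ _
    rw [← Real.exp_nat_mul]
    congr 1
    ring

end CU
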