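import Pool.Agent.helper23.CU.Spec

open Finset Filter Topology

namespace CU

lemma MAIN_card (d n : ℕ) : (Fintype.card (Site d (n + 3)) : ℝ) = ((n : ℝ) + 3) ^ d := by
  rw [Fintype.card_fun, ZMod.card, Fintype.card_fin]
  push_cast
  ring

/-- assembly -/
theorem MAIN (hNC : NC_stmt) (hFN : FN_stmt) (hPH : PH_stmt) (hSB : SB_stmt) (hUA : UA_stmt)
    (hLA : LA_stmt) (hAS : AS_stmt) (hBC : BC_stmt) : MAIN_stmt := by
  intro d β hd hβ hT
  obtain ⟨C, c, k, hC, hc, hT⟩ := hT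
  apply hFN d β hβ
  filter_upwards [hAS d k β C c hβ hC hc] with n hn
  obtain ⟨r₁, r, L, m, s, h1, h2, h3, h4, h5, h6, h7⟩ := hn
  have hn3 : 3 ≤ n + 3 := by omega
  refine hNC d (n + 3) hn3 β hβ (Ph r) s ?_
  obtain ⟨p1, p2, p3⟩ := hPH d (n + 3) r hd (by omega) β
  have t1 := hT n r
  have t2 := hT n r₁
  have hs0 : (0 : ℝ) ≤ s := Nat.cast_nonneg s
  refine ⟨h5, p1, p2, ?_, ?_⟩
  · rw [p3]
    exact (mul_le_mul_of_nonneg_left t1 hs0).trans h6
  · have hU := hUA d (n + 3) L m s hn3 β hβ (fun v => (hBC d (n + 3) L v).trans h4)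
    have hL := hLA d (n + 3) s β (Ph r) p1 p2
    rw [p3] at hL
    rw [MAIN_card] at hU hL
    set q : ℝ := 2 * (1 - ((1 / ((n : ℝ) + 3) ^ d) * (1 / (1 + Real.exp (4 * d * β)))) ^ m) ^ (s / m) with hq
    set z1 : ℝ := C * ((n : ℝ) + 3) ^ k * Real.exp (-c * r₁) with hz1
    set z : ℝ := C * ((n : ℝ) + 3) ^ k * Real.exp (-c * r) with hz
    have hN : (0 : ℝ) ≤ ((n : ℝ) + 3) ^ d := by positivity
    have hsum : ∑ v : Site d (n + 3), (ExD β (Box L v) (fun σ => sg (σ v)) + q) ≤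
        ∑ v : Site d (n + 3), (2 * Ex β (fun σ : Conf d (n + 3) => (Ph r).indicator (fun _ => 1) σ * sg (σ v)) +
          (q + 4 * z1 + 4 * z)) := by
      apply Finset.sum_le_sum
      intro v _
      have := hSB d (n + 3) r₁ r L hd h1 h2 h3 β hβ v
      linarith
    rw [Finset.sum_add_distrib (f := fun v : Site d (n + 3) =>
      2 * Ex β (fun σ : Conf d (n + 3) => (Ph r).indicator (fun _ => 1) σ * sg (σ v)))] at hsum
    rw [Finset.sum_const, Finset.card_univ, nsmul_eq_mul, MAIN_card] at hsum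
    have hLz : 4 * ((n : ℝ) + 3) ^ d * s * PrE β {σ : Conf d (n + 3) | ¬ Good r σ} ≤
        4 * ((n : ℝ) + 3) ^ d * s * z := by
      apply mul_le_mul_of_nonneg_left t1
      positivity
    have h7' : ((n : ℝ) + 3) ^ d * (q + 4 * z1 + 4 * z) + 4 * ((n : ℝ) + 3) ^ d * s * z ≤ 1 / 10000 := by
      calc ((n : ℝ) + 3) ^ d * (q + 4 * z1 + 4 * z) + 4 * ((n : ℝ) + 3) ^ d * s * z
          = ((n : ℝ) + 3) ^ d * (q + 4 * z1 + 4 * z + 4 * s * z) := by ring
        _ ≤ 1 / 10000 := h7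
    linarith

end CU
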