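import Pool.Agent.helper20.CU.AS
import Pool.Agent.helper89.CU.BC
import Pool.Agent.helper24.CU.BR
import Pool.Agent.helper74.CU.BX2
import Pool.Agent.helper31.CU.BX3
import Pool.Agent.helper70.CU.CC
import Pool.Agent.helper70.CU.DG
import Pool.Agent.helper90.CU.FK
import Pool.Agent.helper89.CU.FLP
import Pool.Agent.helper32.CU.FP
import Pool.Agent.helper74.CU.GI
import Pool.Agent.helper74.CU.GR
import Pool.Agent.helper74.CU.HC
import Pool.Agent.helper89.CU.HE
import Pool.Agent.helper97.CU.HG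
import Pool.Agent.helper74.CU.HH
import Pool.Agent.helper77.CU.HK
import Pool.Agent.helper89.CU.LIN
import Pool.Agent.helper71.CU.MON
import Pool.Agent.helper87.CU.PO
import Pool.Agent.helper32.CU.QA
import Pool.Agent.helper41.CU.QB
import Pool.Agent.helper7.CU.QD
import Pool.Agent.helper61.CU.QE
import Pool.Agent.helper74.CU.QF
import Pool.Agent.helper74.CU.RA
import Pool.Agent.helper77.CU.RB
import Pool.Agent.helper28.CU.RC
import Pool.Agent.helper98.CU.REV
import Pool.Agent.helper32.CU.RF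
import Pool.Agent.helper89.CU.BT
import Pool.Agent.helper7.CU.BX1
import Pool.Agent.helper91.CU.BX4
import Pool.Agent.helper21.CU.DEC
import Pool.Agent.helper89.CU.DM
import Pool.Agent.helper23.CU.EX
import Pool.Agent.helper23.CU.HA
import Pool.Agent.helper46.CU.HB
import Pool.Agent.helper74.CU.HD
import Pool.Agent.helper74.CU.L1
import Pool.Agent.helper52.CU.PB
import Pool.Agent.helper89.CU.PM
import Pool.Agent.helper41.CU.QC
import Pool.Agent.helper21.CU.QG
import Pool.Agent.helper31.CU.RD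
import Pool.Agent.helper87.CU.AL
import Pool.Agent.helper91.CU.ERG
import Pool.Agent.helper32.CU.FN
import Pool.Agent.helper89.CU.HF
import Pool.Agent.helper92.CU.HI
import Pool.Agent.helper71.CU.LA
import Pool.Agent.helper71.CU.LO
import Pool.Agent.helper89.CU.MP
import Pool.Agent.helper33.CU.PC
import Pool.Agent.helper41.CU.QH
import Pool.Agent.helper46.CU.RE
import Pool.Agent.helper71.CU.UA
import Pool.Agent.helper24.CU.UP
import Pool.Agent.helper97.CU.GA
import Pool.Agent.helper92.CU.HJ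
import Pool.Agent.helper41.CU.PH
import Pool.Agent.helper79.CU.TA
import Pool.Agent.helper28.CU.HL
import Pool.Agent.helper71.CU.P8
import Pool.Agent.helper89.CU.SB
import Pool.Agent.helper11.CU.SU
import Pool.Agent.helper71.CU.NC
import Pool.Agent.helper23.CU.MAIN

/-!
# Project cu: (MP_7c3fb3_pr), assembly
-/

open Finset Filter Topology

namespace CU

theorem a_AS : AS_stmt := AS 
theorem a_BC : BC_stmt := BC 
theorem a_BR : BR_stmt := BR 
theorem a_BX2 : BX2_stmt := BX2 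
theorem a_BX3 : BX3_stmt := BX3 
theorem a_CC : CC_stmt := CC 
theorem a_DG : DG_stmt := DG 
theorem a_FK : FK_stmt := FK 
theorem a_FLP : FLP_stmt := FLP 
theorem a_FP : FP_stmt := FP 
theorem a_GI : GI_stmt := GI 
theorem a_GR : GR_stmt := GR 
theorem a_HC : HC_stmt := HC 
theorem a_HE : HE_stmt := HE 
theorem a_HG : HG_stmt := HG 
theorem a_HH : HH_stmt := HH 
theorem a_HK : HK_stmt := HK 
theorem a_LIN : LIN_stmt := LIN 
theorem a_MON : MON_stmt := MON 
theorem a_PO : PO_stmt := PO 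
theorem a_QA : QA_stmt := QA 
theorem a_QB : QB_stmt := QB 
theorem a_QD : QD_stmt := QD 
theorem a_QE : QE_stmt := QE 
theorem a_QF : QF_stmt := QF 
theorem a_RA : RA_stmt := RA 
theorem a_RB : RB_stmt := RB 
theorem a_RC : RC_stmt := RC 
theorem a_REV : REV_stmt := REV 
theorem a_RF : RF_stmt := RF 
theorem a_BT : BT_stmt := BT a_LIN a_REV a_FLP
theorem a_BX1 : BX1_stmt := BX1 a_MON a_LIN
theorem a_BX4 : BX4_stmt := BX4 a_BX2 a_BX3 a_LIN a_REV
theorem a_DEC : DEC_stmt := DEC a_CC a_PO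
theorem a_DM : DM_stmt := DM a_BR a_LIN a_REV
theorem a_EX : EX_stmt := EX a_FK
theorem a_HA : HA_stmt := HA a_PO a_RB a_QA
theorem a_HB : HB_stmt := HB a_GI
theorem a_HD : HD_stmt := HD a_GI
theorem a_L1 : L1_stmt := L1 a_MON a_LIN
theorem a_PB : PB_stmt := PB a_GR
theorem a_PM : PM_stmt := PM a_MON a_LIN a_REV
theorem a_QC : QC_stmt := QC a_QA a_QB
theorem a_QG : QG_stmt := QG a_QA a_QD a_QE a_QF
theorem a_RD : RD_stmt := RD a_QA a_RA a_RC
theorem a_AL : AL_stmt := AL a_L1 a_BT a_REV a_LIN a_FLP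
theorem a_ERG : ERG_stmt := ERG a_BX4 a_LIN
theorem a_FN : FN_stmt := FN a_DM
theorem a_HF : HF_stmt := HF a_FK a_HD a_HE
theorem a_HI : HI_stmt := HI a_HG a_HB a_HH
theorem a_LA : LA_stmt := LA a_REV a_LIN a_BT
theorem a_LO : LO_stmt := LO a_DEC
theorem a_MP : MP_stmt := MP a_DEC
theorem a_PC : PC_stmt := PC a_DG a_PB
theorem a_QH : QH_stmt := QH a_QC a_QG
theorem a_RE : RE_stmt := RE a_RB a_RD a_QC
theorem a_UA : UA_stmt := UA a_BX1 a_BX4
theorem a_UP : UP_stmt := UP a_BR a_MON a_LIN a_L1 a_FLP a_REV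
theorem a_GA : GA_stmt := GA a_MON a_LIN a_FLP a_AL
theorem a_HJ : HJ_stmt := HJ a_HA a_HC a_HI a_HF a_RA
theorem a_PH : PH_stmt := PH a_LO a_FP a_LIN a_FLP
theorem a_TA : TA_stmt := TA a_PC
theorem a_HL : HL_stmt := HL a_HJ a_HK a_QH a_RE a_RF
theorem a_P8 : P8_stmt := P8 a_L1 a_REV a_LIN a_BT a_GA
theorem a_SB : SB_stmt := SB a_LIN a_PH a_LO a_DEC a_MP a_EX
theorem a_SU : SU_stmt := SU a_L1 a_LIN a_REV a_GA
theorem a_NC : NC_stmt := NC a_ERG a_GA a_PM a_P8 a_SU a_UP a_BR a_LIN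
theorem a_MAIN : MAIN_stmt := MAIN a_NC a_FN a_PH a_SB a_UA a_LA a_AS a_BC

/-- **The theorem.** -/
theorem RESULT : RESULT_stmt := by
  refine ⟨?_, ?_⟩
  · intro d β hd hβ
    have h0 : 0 ≤ β := by
      refine le_trans ?_ hβ.le
      have h2 : (2 : ℝ) ≤ d := by exact_mod_cast hd
      have : 0 ≤ Real.log (12 * d - 13) := Real.log_nonneg (by linarith)
      positivity
    exact a_MAIN d β hd h0 (a_TA d β hd hβ)
  · intro β₁ β h0 h1 hS
    exact a_MAIN 2 β le_rfl (h0.trans h1.le) (a_HL β₁ β h0 h1 hS)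

end CU
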