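import Pool.Agent.helper23.CU.Model

/-!
# Infinite volume Ising Gibbs measures on `Z^d` (DLR states)
-/

open Finset Filter Topology

namespace CU

/-- the lattice `Z^d` -/
abbrev ZSite (d : ℕ) := Fin d → ℤ

/-- infinite configurations -/
abbrev ZConf (d : ℕ) := ZSite d → Bool

/-- the unit vector `e_i` -/
def zev {d : ℕ} (i : Fin d) : ZSite d := Pi.single i 1

/-- the nearest neighbour pairs `{x, x + e_i}` with at least one endpoint in `Λ` -/
def tE {d : ℕ} (Λ : Finset (ZSite d)) : Finset (ZSite d × Fin d) :=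
  (Λ ×ˢ univ) ∪ ((Λ ×ˢ univ).image fun e => (e.1 - zev e.2, e.2))

/-- Boltzmann weight of the bonds touching `Λ` and the spins of `Λ` -/
noncomputable def zwt {d : ℕ} (β h : ℝ) (Λ : Finset (ZSite d)) (σ : ZConf d) : ℝ :=
  Real.exp (β * ∑ e ∈ tE Λ, sg (σ e.1) * sg (σ (e.1 + zev e.2)) + h * ∑ x ∈ Λ, sg (σ x))

/-- `η` on `Λ`, `ω` off `Λ` -/
def glue {d : ℕ} (Λ : Finset (ZSite d)) (η : {x // x ∈ Λ} → Bool) (ω : ZConf d) : ZConf d :=
  fun x => if hx : x ∈ Λ then η ⟨x, hx⟩ else ω x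

/-- expectation of `f` under the Ising measure in `Λ` with boundary condition `ω` -/
noncomputable def gam {d : ℕ} (β h : ℝ) (Λ : Finset (ZSite d)) (f : ZConf d → ℝ) (ω : ZConf d) : ℝ :=
  (∑ η : {x // x ∈ Λ} → Bool, zwt β h Λ (glue Λ η ω) * f (glue Λ η ω)) /
    ∑ η : {x // x ∈ Λ} → Bool, zwt β h Λ (glue Λ η ω)

/-- infinite volume Gibbs measure (DLR equations) of the Ising model on `Z^d` -/
def IsGibbs (d : ℕ) (β h : ℝ) (μ : MeasureTheory.Measure (ZConf d)) : Prop :=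
  MeasureTheory.IsProbabilityMeasure μ ∧
    ∀ (Λ : Finset (ZSite d)) (A : Set (ZConf d)), MeasurableSet A →
      μ.real A = ∫ ω, gam β h Λ (A.indicator fun _ => 1) ω ∂μ

end CU
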