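import Mathlib

/-!
# Ising Glauber dynamics on tori: the model and the cutoff phenomenon

`Site d n = (Z/n)^d`, configurations `Conf d n = Site d n → Bool` (`true` = +1, `false` = -1).
For `n ≥ 3` every nearest neighbour pair of the torus is `{x, x + e_i}` for exactly one pair `(x, i)`.
-/

open Finset Filter Topology

namespace CU

abbrev Site (d n : ℕ) := Fin d → ZMod n
abbrev Conf (d n : ℕ) := Site d n → Bool

/-- the unit vector `e_i` -/
def ev {d n : ℕ} (i : Fin d) : Site d n := Pi.single i 1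

/-- the spin `±1` of a Boolean -/
def sg (b : Bool) : ℝ := if b then 1 else -1

section model

variable {d n : ℕ} [NeZero n]

/-- the Boltzmann weight `exp (β ∑_{x ~ y} σ_x σ_y + h ∑_x σ_x)` -/
noncomputable def wt (β h : ℝ) (σ : Conf d n) : ℝ :=
  Real.exp (β * ∑ x : Site d n, ∑ i : Fin d, sg (σ x) * sg (σ (x + ev i)) +
    h * ∑ x : Site d n, sg (σ x))

/-- the Ising measure `π_n` on the torus -/
noncomputable def gibbs (β h : ℝ) (σ : Conf d n) : ℝ := wt β h σ / ∑ η : Conf d n, wt β h η

/-- the transition matrix of the heat bath Glauber dynamics: a uniformly random site is resampled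
from its conditional law given the other spins -/
noncomputable def glauber (β h : ℝ) : Matrix (Conf d n) (Conf d n) ℝ := fun σ η =>
  (∑ x : Site d n, if (∀ y, y ≠ x → η y = σ y) then
    wt β h η / (wt β h (Function.update σ x true) + wt β h (Function.update σ x false)) else 0) /
  (Fintype.card (Site d n) : ℝ)

end model

/-- worst case total variation distance `max_σ ‖P^t(σ,·) - π‖_TV` -/
noncomputable def dTV (d n : ℕ) [NeZero n] (β h : ℝ) (t : ℕ) : ℝ :=
  ⨆ σ : Conf d n, (∑ η : Conf d n, |((glauber β h) ^ t) σ η - gibbs β h η|) / 2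

/-- cutoff for the sequence of tori of side `n + 3`, `n = 0, 1, 2, …` -/
def Cutoff (d : ℕ) (β h : ℝ) : Prop := ∃ τ : ℕ → ℝ, Tendsto τ atTop atTop ∧
  ∀ ε : ℝ, 0 < ε → ε < 1 →
    Tendsto (fun n : ℕ => dTV d (n + 3) β h ⌊(1 - ε) * τ n⌋₊) atTop (𝓝 1) ∧
    Tendsto (fun n : ℕ => dTV d (n + 3) β h ⌊(1 + ε) * τ n⌋₊) atTop (𝓝 0)

end CU
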