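import Pool.Agent.helper23.CU.Spec

/-!
# Project cu: (MP_7c3fb3_pr), part 2: exponential tail of the contours for `d = 2` and every `β > β_c`

Dual lattice: the square with lower left corner `x` is the dual vertex `x`.  The edge `(x,0)` joins the dual vertices `x` and `x - e_1`, the edge
`(x,1)` joins `x` and `x - e_0`.  So a set of edges of the torus is also a set of dual edges.
-/

open Finset Filter Topology

namespace CU

section defs
variable {n : ℕ}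

/-- second dual endpoint of an edge (the first one is `e.1`) -/
def dn (e : Edge 2 n) : Site 2 n := e.1 - ev (1 - e.2)

/-- boundary (degrees mod 2) of a set of dual edges -/
def bd (η : Finset (Edge 2 n)) (v : Site 2 n) : ZMod 2 :=
  ∑ e ∈ η, ((if e.1 = v then (1 : ZMod 2) else 0) + (if dn e = v then 1 else 0))

def src (u w : Site 2 n) : Site 2 n → ZMod 2 := fun v => (if v = u then 1 else 0) + (if v = w then 1 else 0)

open Classical in
/-- partition function of the subgraphs of `F` with boundary `S` -/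
noncomputable def Zs (F : Finset (Edge 2 n)) (S : Site 2 n → ZMod 2) (x : ℝ) : ℝ :=
  ∑ η ∈ F.powerset.filter (fun η => bd η = S), x ^ η.card

/-- two point function (high temperature expansion, `x = tanh`) -/
noncomputable def corr (F : Finset (Edge 2 n)) (x : ℝ) (u w : Site 2 n) : ℝ := Zs F (src u w) x / Zs F 0 x

/-- graph on the dual vertices given by a set of dual edges -/
def dG (η : Finset (Edge 2 n)) : SimpleGraph (Site 2 n) where
  Adj u w := u ≠ w ∧ ∃ e ∈ η, (e.1 = u ∧ dn e = w) ∨ (e.1 = w ∧ dn e = u)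
  symm := ⟨fun _ _ h => ⟨h.1.symm, by obtain ⟨e, he, h⟩ := h.2; exact ⟨e, he, h.symm⟩⟩⟩
  loopless := ⟨fun _ h => h.1 rfl⟩

variable [NeZero n]

/-- dual edges inside the box -/
def FS (r : ℕ) (u : Site 2 n) : Finset (Edge 2 n) := univ.filter fun e => e.1 ∈ Box r u ∧ dn e ∈ Box r u

/-- dual edges with exactly one endpoint in the box -/
def cut (r : ℕ) (u : Site 2 n) : Finset (Edge 2 n) :=
  univ.filter fun e => (e.1 ∈ Box r u ∧ dn e ∉ Box r u) ∨ (e.1 ∉ Box r u ∧ dn e ∈ Box r u)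

def inn (r : ℕ) (u : Site 2 n) (e : Edge 2 n) : Site 2 n := if e.1 ∈ Box r u then e.1 else dn e
def outn (r : ℕ) (u : Site 2 n) (e : Edge 2 n) : Site 2 n := if e.1 ∈ Box r u then dn e else e.1

/-- primal sites surrounded by four squares of the box -/
def DS (r : ℕ) (u : Site 2 n) : Finset (Site 2 n) :=
  univ.filter fun y => y ∈ Box r u ∧ y - ev 0 ∈ Box r u ∧ y - ev 1 ∈ Box r u ∧ y - ev 0 - ev 1 ∈ Box r u

end defs

section defs2
variable {d n : ℕ} [NeZero n]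

/-- partition function with `+` outside `D` and couplings reversed on `γ` -/
noncomputable def ZG (b : ℝ) (D : Finset (Site d n)) (γ : Finset (Edge d n)) : ℝ :=
  ∑ σ ∈ PlusOn D, Real.exp (-2 * b * ((symmDiff (brk σ) γ).card : ℝ))

noncomputable def EG (b : ℝ) (D : Finset (Site d n)) (γ : Finset (Edge d n)) (f : Conf d n → ℝ) : ℝ :=
  (∑ σ ∈ PlusOn D, Real.exp (-2 * b * ((symmDiff (brk σ) γ).card : ℝ)) * f σ) / ZG b D γ

/-- `s_e` -/
def sgn {d n : ℕ} (γ : Finset (Edge d n)) (e : Edge d n) : ℝ := if e ∈ γ then -1 else 1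

/-- `σ_x σ_y` for the edge `e = xy` -/
def ed {d n : ℕ} (e : Edge d n) (σ : Conf d n) : ℝ := sg (σ e.1) * sg (σ (e.1 + ev e.2))

end defs2

/-! ## F. Subgraphs with boundary -/

/-- **QA**.  A path gives a subgraph with boundary `{u, w}` (induction on the walk, symmetric differences; `bd (symmDiff η ζ) = bd η + bd ζ`). -/
def QA_stmt : Prop := ∀ (n : ℕ), 3 ≤ n → (∀ η ζ : Finset (Edge 2 n), bd (symmDiff η ζ) = bd η + bd ζ) ∧
  ∀ (ω : Finset (Edge 2 n)) (u w : Site 2 n), (dG ω).Reachable u w → ∃ γ ⊆ ω, bd γ = src u w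

/-- **QB**.  With `a = x/(1-x)`: `∑_{η ⊆ F, P η} x^{#η} = (1-x)^{#F} ∑_{ω ⊆ F} a^{#ω} #{η ⊆ ω, P η}` for every predicate `P`
(binomial formula on `F \ η`: `∑_{η ⊆ ω ⊆ F} a^{#ω} = a^{#η} (1+a)^{#F - #η}`). -/
def QB_stmt : Prop := ∀ (n : ℕ) (F : Finset (Edge 2 n)) (P : Finset (Edge 2 n) → Prop) (x : ℝ), 0 < x → x < 1 →
  (∑ η ∈ F.powerset, (open Classical in if P η then x ^ η.card else 0)) =
    (1 - x) ^ F.card * ∑ ω ∈ F.powerset, (x / (1 - x)) ^ ω.card *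
      (open Classical in ((ω.powerset.filter fun η => P η).card : ℝ))

/-- **QC**.  `0 ≤ Z^{u,w} ≤ Z^∅`, `Z^∅ > 0` (QB; if some `γ ⊆ ω` has boundary `{u,w}` then `η ↦ symmDiff η γ` is a bijection of the subsets of `ω` with
boundary `{u,w}` onto the even ones), and
**the connection inequality**: `∑_{η ⊆ F even, u ↔ w in η} x^{#η} ≤ Z^{u,w}` (QB with `P η` = even and connected, `≤` even and `u ↔ w in ω`; QA). -/
def QC_stmt : Prop := ∀ (n : ℕ), 3 ≤ n → ∀ (F : Finset (Edge 2 n)) (x : ℝ), 0 < x → x < 1 → ∀ u w : Site 2 n,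
  0 < Zs F 0 x ∧ 0 ≤ Zs F (src u w) x ∧ Zs F (src u w) x ≤ Zs F 0 x ∧
  (open Classical in (∑ η ∈ F.powerset.filter (fun η => bd η = 0 ∧ (dG η).Reachable u w), x ^ η.card)) ≤ Zs F (src u w) x

/-- **QD**.  Pair version of QB: for `G ⊆ F`, pairs `(η, ζ)`, `η ⊆ F`, `ζ ⊆ G`, and any weight `Φ (η) (ζ)`:
`x^{#η + #ζ} = ∑_{ω ⊆ G, (η ∩ G) ∪ ζ ⊆ ω} x^{#η + #ζ} (x^2)^{#(ω \ (η ∪ ζ))} (1 - x^2)^{#(G \ ω)}`. -/
def QD_stmt : Prop := ∀ (n : ℕ) (G η ζ : Finset (Edge 2 n)) (x : ℝ), ζ ⊆ G →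
  (∑ ω ∈ G.powerset.filter (fun ω => (η ∩ G) ∪ ζ ⊆ ω),
    x ^ (η.card + ζ.card) * (x ^ 2) ^ (ω \ (η ∪ ζ)).card * (1 - x ^ 2) ^ (G \ ω).card) = x ^ (η.card + ζ.card)

/-- **QE**.  The weight in QD is invariant under the simultaneous switch by `γ ⊆ ω`: for `ω ⊆ G`, `(η ∩ G) ∪ ζ ⊆ ω`, `ζ ⊆ G`, `γ ⊆ ω`
(edge by edge in `ω`: the states `(1,1)`, `(0,0)` have weight `x²`, the states `(1,0)`, `(0,1)` weight `x`). -/
def QE_stmt : Prop := ∀ (n : ℕ) (G η ζ ω γ : Finset (Edge 2 n)) (x : ℝ), ω ⊆ G → (η ∩ G) ∪ ζ ⊆ ω → γ ⊆ ω →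
  x ^ ((symmDiff η γ).card + (symmDiff ζ γ).card) * (x ^ 2) ^ (ω \ (symmDiff η γ ∪ symmDiff ζ γ)).card =
    x ^ (η.card + ζ.card) * (x ^ 2) ^ (ω \ (η ∪ ζ)).card

/-- **QF**.  Parity: `η` with boundary `{u,w}`, `u ∈ Box r u₀`, `w ∉ Box r u₀`, `ω ⊆ FS r u₀` containing `η ∩ FS`: some cut edge of `η` has its inner end connected to
`u` in `ω` (sum the boundary of `η` over the component `C` of `u` in `ω`, `C ⊆ Box r u₀`; edges of `η` inside the box do not leave `C`). -/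
def QF_stmt : Prop := ∀ (n r : ℕ) [NeZero n], 3 ≤ n → ∀ (u₀ u w : Site 2 n) (η ω : Finset (Edge 2 n)),
  bd η = src u w → u ∈ Box r u₀ → w ∉ Box r u₀ → ω ⊆ FS r u₀ → η ∩ FS r u₀ ⊆ ω →
    ∃ e ∈ η, e ∈ cut r u₀ ∧ (dG ω).Reachable u (inn r u₀ e)

/-- **QG**.  Simon-Lieb inequality.  `Z_F^{u,w} Z_S^∅ = ∑ x^{#η+#ζ}` over `∂η = {u,w}`, `ζ ⊆ FS` even; expand by QD with `G = FS r u₀`; by QF choose a cut edge
`e ∈ η` with `inn e ↔ u` in `ω`; switch `(η, ζ)` by a path `γ ⊆ ω` from `u` to `inn e` (QA, QE: a bijection for fixed `ω`, `e`); now `∂ζ = {u, inn e}`, `∂η = {inn e, w}`,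
`e ∈ η` (as `e ∉ FS`); sum over `ω` again by QD; remove `e` from `η`: `∂ = {outn e, w}`, a factor `x`. -/
def QG_stmt : Prop := ∀ (n r : ℕ) [NeZero n], 3 ≤ n → ∀ (u₀ u w : Site 2 n) (x : ℝ), 0 < x → x < 1 →
  u ∈ Box r u₀ → w ∉ Box r u₀ →
    corr univ x u w ≤ ∑ e ∈ cut r u₀, x * corr (FS r u₀) x u (inn r u₀ e) * corr univ x (outn r u₀ e) w

/-- **QH**.  Iteration of QG: if `∑_{e ∈ cut r u} x corr(FS r u) u (inn e) ≤ 1/2` for all `u` then `corr univ x u w ≤ 2^{-q}` when `w` is not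
`Near (q (r+1))` of `u`. -/
def QH_stmt : Prop := ∀ (n r : ℕ) [NeZero n], 3 ≤ n → ∀ (x : ℝ), 0 < x → x < 1 →
  (∀ u : Site 2 n, ∑ e ∈ cut r u, x * corr (FS r u) x u (inn r u e) ≤ 1 / 2) →
    ∀ (q : ℕ) (u w : Site 2 n), ¬ Near (q * (r + 1)) u w → corr univ x u w ≤ (1 / 2) ^ q

/-! ## G. Contours on the torus -/

/-- **RA**.  Reversing couplings lowers the partition function: `ZG b D γ ≤ ZG b D ∅` (expand `exp(b s_e σ_e) = cosh b + s_e σ_e sinh b`; sums of monomials in the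
spins over `PlusOn D` are `≥ 0`; `exp(-2b #(brk Δ γ)) = ∏_e exp(b (s_e σ_e - 1))`). -/
def RA_stmt : Prop := ∀ (d n : ℕ) [NeZero n] (b : ℝ), 0 ≤ b → ∀ (D : Finset (Site d n)) (γ : Finset (Edge d n)),
  ZG b D γ ≤ ZG b D ∅

/-- **RB**.  The map `σ ↦ brk σ`: even, and injective up to the flip. -/
def RB_stmt : Prop := ∀ (n : ℕ) [NeZero n], 3 ≤ n → (∀ σ : Conf 2 n, bd (brk σ) = 0) ∧
  (∀ σ σ' : Conf 2 n, brk σ = brk σ' → σ' = σ ∨ σ' = flipc σ)

/-- **RC**.  An even set with zero parity on the two coordinate lines through 0 is a set of broken edges: the sum of `[(j e_0 + y, 0) ∈ η]` over the whole line does not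
depend on the line; `τ(x) = ∑_{j < x_0.val} [((j, 0), 0) ∈ η] + ∑_{j < x_1.val} [((x_0, j), 1) ∈ η]`. -/
def RC_stmt : Prop := ∀ (n : ℕ) [NeZero n], 3 ≤ n → ∀ η : Finset (Edge 2 n), bd η = 0 →
  (∀ i : Fin 2, (∑ j : ZMod n, if ((Pi.single i j : Site 2 n), i) ∈ η then (1 : ZMod 2) else 0) = 0) →
    ∃ σ : Conf 2 n, brk σ = η

/-- **RD**.  `Z(all even sets) ≤ 2 ∑_σ x^{#brk σ}`, `x = e^{-2β}`: split the even sets into the (at most 4) classes of the two line parities; in each nonempty class choose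
`ζ`; `η ↦ symmDiff η ζ` maps the class into the sets `brk σ` (RC), so the class sum is at most `(1/2) ∑_σ x^{#(brk σ Δ ζ)} ≤ (1/2) ∑_σ x^{#brk σ}` (RB, RA with `D = univ`). -/
def RD_stmt : Prop := ∀ (n : ℕ) [NeZero n], 3 ≤ n → ∀ β : ℝ, 0 < β →
  Zs (univ : Finset (Edge 2 n)) 0 (Real.exp (-2 * β)) ≤ 2 * ∑ σ : Conf 2 n, Real.exp (-2 * β) ^ (brk σ).card

/-- **RE**.  `P(u, w in one contour cluster) ≤ 4 ⟨σ_u σ_w⟩` (dual): RB, RD, QC. -/
def RE_stmt : Prop := ∀ (n : ℕ) [NeZero n], 3 ≤ n → ∀ β : ℝ, 0 < β → ∀ u w : Site 2 n,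
  PrE β {σ : Conf 2 n | (dG (brk σ)).Reachable u w} ≤ 4 * corr univ (Real.exp (-2 * β)) u w

/-- **RF**.  If `¬ Good r σ` there are `u, w`, not `Near r`, connected in `dG (brk σ)` (two edges in a common square `z` both have the dual endpoint `z`). -/
def RF_stmt : Prop := ∀ (n r : ℕ) [NeZero n], 3 ≤ n → ∀ σ : Conf 2 n, ¬ Good r σ →
  ∃ u w : Site 2 n, ¬ Near r u w ∧ (dG (brk σ)).Reachable u w

/-! ## H. Duality in a box and the Lebowitz-Pfister inequality -/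

/-- **HA**.  Duality in a box.  `σ ∈ PlusOn (DS r u)` has `brk σ ⊆ FS r u`; `σ ↦ brk σ` is a bijection of `PlusOn (DS r u)` onto the even subsets of `FS r u`
(surjective: PO with `2 r` gives a potential of a nonempty even set; it vanishes off `DS`: from a site `y ∉ DS` walk along a whole coordinate line, and then to a far site, using
edges not in `FS`). -/
def HA_stmt : Prop := ∀ (n r : ℕ) [NeZero n], 4 * r + 8 ≤ n → ∀ (u : Site 2 n) (γ : Finset (Edge 2 n)), γ ⊆ FS r u → ∀ b : ℝ,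
  Zs (FS r u) (bd γ) (Real.exp (-2 * b)) = ZG b (DS r u) γ

/-- **GI**.  Ginibre inequality.  Couplings `|J' e| ≤ J e`; with `a_x = σ_x + σ'_x`, `b_x = σ_x - σ'_x` (sites off `D`: `a = 2`, `b = 0`) the exponent is
`∑_e ((J+J')/4)(a a + b b) + ((J-J')/4)(a b + b a)`, a polynomial with nonnegative coefficients; expand the exponential; sums of monomials factorise over the sites of `D` and
`∑_{σ_x, σ'_x} a^p b^q ≥ 0`. -/
def GI_stmt : Prop := ∀ (d n : ℕ) [NeZero n] (D : Finset (Site d n)) (J J' : Edge d n → ℝ), (∀ e, |J' e| ≤ J e) →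
  ∀ X Y : List (Site d n),
    0 ≤ ∑ σ ∈ PlusOn D, ∑ σ' ∈ PlusOn D, Real.exp (∑ e : Edge d n, (J e * ed e σ + J' e * ed e σ')) *
      ((X.map fun x => sg (σ x) + sg (σ' x)).prod * (Y.map fun x => sg (σ x) - sg (σ' x)).prod)

/-- **HB**.  Pair inequality.  GI with `J = b`, `J' = b s_e` and `(x∓, y±)` for `s_e = 1`, `(x±, y±)` for `s_e = -1`. -/
def HB_stmt : Prop := ∀ (d n : ℕ) [NeZero n] (b : ℝ), 0 ≤ b → ∀ (D : Finset (Site d n)) (γ : Finset (Edge d n)) (e : Edge d n),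
  |EG b D ∅ (fun σ => sg (σ e.1)) * EG b D γ (fun σ => sg (σ (e.1 + ev e.2))) -
      sgn γ e * EG b D ∅ (fun σ => sg (σ (e.1 + ev e.2))) * EG b D γ (fun σ => sg (σ e.1))| ≤
    EG b D ∅ (ed e) - sgn γ e * EG b D γ (ed e)

/-- **HC**.  Derivative of `log (Z^γ/Z)` in `b`: `-2 #(brk σ Δ γ) = ∑_e (s_e σ_e - 1)`. -/
def HC_stmt : Prop := ∀ (d n : ℕ) [NeZero n] (D : Finset (Site d n)) (γ : Finset (Edge d n)) (b : ℝ),
  HasDerivAt (fun b => Real.log (ZG b D γ) - Real.log (ZG b D ∅))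
    (-(∑ e : Edge d n, (EG b D ∅ (ed e) - sgn γ e * EG b D γ (ed e)))) b

/-- **HD**.  The plus magnetisation increases with `b` (GI with `J = b`, `J' = b'`, `X = []`, `Y = [x]`; `ExD b D = EG b D ∅`). -/
def HD_stmt : Prop := ∀ (d n : ℕ) [NeZero n] (D : Finset (Site d n)) (b' b : ℝ), 0 ≤ b' → b' ≤ b → ∀ x : Site d n,
  ExD b' D (fun σ => sg (σ x)) ≤ ExD b D (fun σ => sg (σ x))

/-- **HE**.  Translation invariance. -/
def HE_stmt : Prop := ∀ (d n L : ℕ) [NeZero n] (b : ℝ) (v : Site d n),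
  ExD b (Box L v) (fun σ => sg (σ v)) = ExD b (Box L (0 : Site d n)) (fun σ => sg (σ 0))

/-- **HF**.  Uniform lower bound of the magnetisation in `DS r u`: FK (`DS r u ⊆ Box (2r+2) x` for `x ∈ DS`), HD, HE; for `x ∉ DS` the value is 1 `≥ m`. -/
def HF_stmt : Prop := ∀ (β₁ m : ℝ), 0 ≤ β₁ → (∀ L n : ℕ, 2 * L ≤ n →
  m ≤ ExD (d := 2) (n := n + 3) β₁ (Box L 0) (fun σ => sg (σ 0))) →
    ∀ b : ℝ, β₁ ≤ b → ∀ n r : ℕ, 4 * r + 8 ≤ n → ∀ u x : Site 2 (n + 3), m ≤ ExD b (DS r u) (fun σ => sg (σ x))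

/-- **HG**.  Parity of a dual path on a column.  `k = 0`: for an offset `j` with `-r < j ≤ r` (column `y_0 = u_0 + j`), the number of edges `(y,1) ∈ γ` with `y_0 = u_0 + j`
is `≡ 1` iff exactly one of `v, w` is among the squares with offset `< j`, i.e. in `H = {z ∈ Box r u : offset of z_0 ≤ j - 1}` (sum `bd γ` over `H`: the edges of `γ ⊆ FS`
with exactly one dual endpoint in `H` are the `(y,1)` with `y_0 = u_0 + j`).  General `k`: edges `(y, 1-k)` with `y k = u k + j`. -/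
def HG_stmt : Prop := ∀ (n r : ℕ) [NeZero n], 4 * r + 8 ≤ n → ∀ (u v w : Site 2 n) (γ : Finset (Edge 2 n)), γ ⊆ FS r u → bd γ = src v w →
  v ∈ Box r u → w ∈ Box r u → ∀ (k : Fin 2) (j : ℤ), (v k - u k).valMinAbs < j → j ≤ (w k - u k).valMinAbs →
    (∑ y : Site 2 n, if y k = u k + (j : ZMod n) ∧ (y, 1 - k) ∈ γ then (1 : ZMod 2) else 0) = 1

/-- **HH**.  One column.  Let `a : ZMod n → ℝ`, `s : ZMod n → ℝ` with values `±1`, an odd number of `-1`, and `a j₀ = 1` for some `j₀`; then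
`∑_j |a (j+1) - s j * a j| ≥ 2` (telescoping around the cycle). -/
def HH_stmt : Prop := ∀ (n : ℕ) [NeZero n] (a s : ZMod n → ℝ) (S : Finset (ZMod n)), (∀ j, s j = if j ∈ S then -1 else 1) →
  Odd S.card → (∃ j₀, a j₀ = 1) → 2 ≤ ∑ j, |a (j + 1) - s j * a j|

/-- **HI**.  Sum over the columns between `v` and `w`.  Each column crossed an odd number of times (HG) contributes at least `2 m²`: HB, with `a = m'/m`, `m_x ≥ m`, and HH
(a site far from `DS` in the column has `m_x = m'_x = 1`); the other edges contribute `≥ 0` (HB). -/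
def HI_stmt : Prop := ∀ (n r : ℕ) [NeZero n], 4 * r + 8 ≤ n → ∀ (b m : ℝ), 0 ≤ b → 0 < m → ∀ (u v w : Site 2 n) (γ : Finset (Edge 2 n)),
  γ ⊆ FS r u → bd γ = src v w → v ∈ Box r u → w ∈ Box r u →
  (∀ x : Site 2 n, m ≤ ExD b (DS r u) (fun σ => sg (σ x))) → ∀ k : Fin 2, (v k - u k).valMinAbs ≤ (w k - u k).valMinAbs →
    2 * m ^ 2 * (((w k - u k).valMinAbs - (v k - u k).valMinAbs : ℤ) : ℝ) ≤
      ∑ e : Edge 2 n, (EG b (DS r u) ∅ (ed e) - sgn γ e * EG b (DS r u) γ (ed e))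

/-- **HJ**.  Decay of the dual two point function in a box: integrate HC, HI over `[β₁, β]` (HF), `Z^γ/Z ≤ 1` at `β₁` (RA), HA.  (If no `γ ⊆ FS` has boundary `{u, w}` then
`corr = 0`.  Here `v = u` is the centre; apply HI to `(u, w)` or `(w, u)`.) -/
def HJ_stmt : Prop := ∀ (β₁ β m : ℝ), 0 ≤ β₁ → β₁ < β → 0 < m → (∀ L n : ℕ, 2 * L ≤ n →
  m ≤ ExD (d := 2) (n := n + 3) β₁ (Box L 0) (fun σ => sg (σ 0))) →
    ∀ n r : ℕ, 4 * r + 8 ≤ n → ∀ u w : Site 2 (n + 3), w ∈ Box r u → ∀ k : Fin 2,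
      corr (FS r u) (Real.exp (-2 * β)) u w ≤ Real.exp (-(2 * m ^ 2 * (β - β₁) * ((w k - u k).valMinAbs.natAbs : ℝ)))

/-- **HK**.  Number of cut edges `≤ 4 (2r+1)` and the inner end of a cut edge has a coordinate difference exactly `r` from the centre (for `2 r + 3 ≤ n`). -/
def HK_stmt : Prop := ∀ (n r : ℕ) [NeZero n], 2 * r + 3 ≤ n → ∀ u : Site 2 n, (cut r u).card ≤ 4 * (2 * r + 1) ∧
  ∀ e ∈ cut r u, inn r u e ∈ Box r u ∧ (∃ k, (inn r u e k - u k).valMinAbs.natAbs = r) ∧ Near (r + 1) u (outn r u e)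

/-- **HL**.  Exponential tail for `d = 2`, `β > β₁`, spontaneous magnetisation at `β₁`.  Choose `r₀` with `4 (2 r₀ + 1) exp(-2m²(β-β₁) r₀) ≤ 1/2` (HJ, HK, `x < 1`); for `n ≥ 4 r₀ + 8`:
QH, RE, RF, union bound over `u, w` and `q = r/(r₀+1)`.  For smaller `n`: `Good r` always holds if `r ≥ n + 3`. -/
def HL_stmt : Prop := ∀ (β₁ β : ℝ), 0 ≤ β₁ → β₁ < β → SpontMag 2 β₁ → TailB 2 β

/-- **THE THEOREM** (MAIN, TA, HL). -/
def RESULT_stmt : Prop :=
  (∀ (d : ℕ) (β : ℝ), 2 ≤ d → Real.log (12 * d - 13) / 2 < β → ¬ Cutoff d β 0) ∧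
  (∀ β₁ β : ℝ, 0 ≤ β₁ → β₁ < β → SpontMag 2 β₁ → ¬ Cutoff 2 β 0)

end CU
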