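import Pool.Agent.helper23.CU.SpecE
import Pool.Agent.helper23.CU.Gibbs

/-!
# Project cu: (MP_7c3fb3_pr), part 3: non-uniqueness of the Gibbs measure implies spontaneous magnetisation

All statements in zero field (`h = 0`).  Configurations are ordered pointwise (`false < true`).
-/

open Finset Filter Topology MeasureTheory

namespace CU

/-- the box `v + {-L..L}^d` of `Z^d` -/
noncomputable def zBox {d : ℕ} (L : ℕ) (v : ZSite d) : Finset (ZSite d) :=
  Fintype.piFinset fun k => Finset.Icc (v k - L) (v k + L)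

/-- **VA**.  Monotonicity in the boundary condition (and of the configuration read by `f`): Mathlib's `holley` on the distributive lattice
`{x // x ∈ Λ} → Bool` with the normalised weights `zwt (glue η ω) / Z`, `zwt (glue η ω') / Z'`; the condition
`w(η) w'(η') ≤ w(η ⊓ η') w'(η ⊔ η')` holds bond by bond: `a b + a' b' ≤ (a ⊓ a')(b ⊓ b') + (a ⊔ a')(b ⊔ b')` for spins (as real numbers), the configurations
being `glue η ω`, `glue η' ω'`, with `glue (η ⊓ η') ω = glue η ω ⊓ glue η' ω'` since `ω ≤ ω'`.  Shift `f` by a constant to make it nonnegative. -/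
def VA_stmt : Prop := ∀ (d : ℕ) (β : ℝ), 0 ≤ β → ∀ (Λ : Finset (ZSite d)) (f : ZConf d → ℝ), Monotone f →
  ∀ ω ω' : ZConf d, ω ≤ ω' → gam β 0 Λ f ω ≤ gam β 0 Λ f ω'

/-- **VB**.  Consistency.  `zwt Λ' (σ) = (weight of the bonds touching Λ' but not Λ, which depends only on σ off Λ) * zwt Λ σ`
(`tE Λ ⊆ tE Λ'`); `{x ∈ Λ'} → Bool` splits into the parts on `Λ` and on `Λ' \ Λ`. -/
def VB_stmt : Prop := ∀ (d : ℕ) (β : ℝ) (Λ Λ' : Finset (ZSite d)), Λ ⊆ Λ' → ∀ (f : ZConf d → ℝ) (ω : ZConf d),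
  gam β 0 Λ' (fun σ => gam β 0 Λ f σ) ω = gam β 0 Λ' f ω

/-- **VC**.  The plus magnetisation decreases with the volume (VA, VB: `gam Λ f σ ≤ gam Λ f plus` for every `σ`, `gam` is an average). -/
def VC_stmt : Prop := ∀ (d : ℕ) (β : ℝ), 0 ≤ β → ∀ (Λ Λ' : Finset (ZSite d)), Λ ⊆ Λ' → ∀ x : ZSite d,
  gam β 0 Λ' (fun σ => sg (σ x)) (fun _ => true) ≤ gam β 0 Λ (fun σ => sg (σ x)) (fun _ => true)

/-- **VD**.  Translation invariance. -/
def VD_stmt : Prop := ∀ (d : ℕ) (β : ℝ) (L : ℕ) (x : ZSite d),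
  gam β 0 (zBox L x) (fun σ => sg (σ x)) (fun _ => true) =
    gam β 0 (zBox L (0 : ZSite d)) (fun σ => sg (σ 0)) (fun _ => true)

/-- **VE**.  Spin flip. -/
def VE_stmt : Prop := ∀ (d : ℕ) (β : ℝ) (Λ : Finset (ZSite d)) (x : ZSite d),
  gam β 0 Λ (fun σ => sg (σ x)) (fun _ => false) = - gam β 0 Λ (fun σ => sg (σ x)) (fun _ => true)

/-- **VF**.  The box in a torus of side `n + 3 ≥ 2 L + 3` with plus boundary conditions is the box in `Z^d`: reduction modulo `n + 3` is injective on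
`{-L-1..L+1}^d` and maps `zBox L 0` onto `Box L 0`; bijection of `{x ∈ zBox L 0} → Bool` with `PlusOn (Box L 0)`; bonds touching the box correspond;
`W β σ = exp (-2 β #broken)`, `zwt = exp (β (#bonds - 2 #broken))`. -/
def VF_stmt : Prop := ∀ (d : ℕ) (β : ℝ) (L n : ℕ), 2 * L ≤ n →
  ExD (d := d) (n := n + 3) β (Box L 0) (fun σ => sg (σ 0)) =
    gam β 0 (zBox L (0 : ZSite d)) (fun σ => sg (σ 0)) (fun _ => true)

/-- **VG**.  Local comparison of two Gibbs measures.  `f = 1{σ = + on S}` and `∑_{x ∈ S} 1{σ_x = +} - f` are increasing, so by VA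
`γ(f|-) ≤ γ(f|ω) ≤ γ(f|+)` for every `ω` and `γ(f|+) - γ(f|-) ≤ ∑_{x ∈ S} (γ(σ_x = +|+) - γ(σ_x = +|-)) = ∑_{x ∈ S} γ(σ_x|+)` (VE, `1{σ_x = +} = (1 + σ_x)/2`);
integrate the DLR equation (`gam` of a measurable set is a bounded measurable function of `ω`). -/
def VG_stmt : Prop := ∀ (d : ℕ) (β : ℝ), 0 ≤ β → ∀ μ ν : Measure (ZConf d), IsGibbs d β 0 μ → IsGibbs d β 0 ν →
  ∀ S Λ : Finset (ZSite d), |μ.real {σ | ∀ x ∈ S, σ x = true} - ν.real {σ | ∀ x ∈ S, σ x = true}| ≤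
    ∑ x ∈ S, gam β 0 Λ (fun σ => sg (σ x)) (fun _ => true)

/-- **VP**.  Two probability measures which agree on the sets `{σ = + on S}`, `S` finite, are equal (pi-system generating the product sigma-algebra). -/
def VP_stmt : Prop := ∀ (d : ℕ) (μ ν : Measure (ZConf d)), IsProbabilityMeasure μ → IsProbabilityMeasure ν →
  (∀ S : Finset (ZSite d), μ.real {σ | ∀ x ∈ S, σ x = true} = ν.real {σ | ∀ x ∈ S, σ x = true}) → μ = ν

/-- **VH**.  Non-uniqueness implies spontaneous magnetisation.  If `SpontMag d β` fails, for `m > 0` there is `L` (VF) with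
`gam (zBox L 0) σ_0 < m`, so (VD, VC) `gam (zBox (L + K) 0) σ_x < m` for all `x ∈ S ⊆ zBox K 0`; VG, VP. -/
def VH_stmt : Prop := ∀ (d : ℕ) (β : ℝ), 0 ≤ β → ∀ μ ν : Measure (ZConf d), IsGibbs d β 0 μ → IsGibbs d β 0 ν → μ ≠ ν →
  SpontMag d β

end CU
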